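import Pool.Agent.Y121.AHS.Defs
import Pool.Agent.R920.DB.Defs
import Pool.Agent.Y133.Half.PairDefs

/-!
# De Rham-Betti classes which are Hodge classes: definitions
-/

open CategoryTheory AlgebraicGeometry

universe u

namespace Pool.Agent.U128.ZO.DRB

open Pool.Agent.H914 Pool.Agent.H914.VarClass Pool.Agent.H914.VarClass.Obj
  Pool.Agent.H914.WeilCohomology
open Pool.Agent.Y121.AHS Pool.Agent.Y133.Per
open Pool.Agent.Y133.Half (pw)

variable {k : Type u} [Field k] {𝒱 : VarClass k} {ops : CycleOps 𝒱}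

/-- The class `c` is a de Rham-Betti class and a Hodge class. -/
def IsHodgeDRB (T : HodgeTheory ops) {F : Subfield ℂ} (D : DeRham T.W F) (X : 𝒱.Obj) (j : ℕ)
    (c : T.W.H X) : Prop :=
  IsHodge T X j c ∧ IsDRB D X j c

/-- All de Rham-Betti classes on all powers of `X` are Hodge classes. -/
def DRBAreHodge (T : HodgeTheory ops) {F : Subfield ℂ} (D : DeRham T.W F) (X : 𝒱.Obj) : Prop :=
  ∀ n j c, IsDRB D (pw X n) j c → IsHodge T (pw X n) j c

end Pool.Agent.U128.ZO.DRB
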