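import Pool.Agent.U128.ZO.Law
import Pool.Agent.U128.ZO.DrbDefs

/-!
# The zero-one law for the de Rham-Betti classes
-/

open CategoryTheory AlgebraicGeometry TensorProduct Filter Topology

open scoped ENNReal

universe u

namespace Pool.Agent.U128.ZO.DRB

open Module
open Pool.Agent.H914 Pool.Agent.H914.VarClass Pool.Agent.H914.VarClass.Obj
  Pool.Agent.H914.WeilCohomology
open Pool.Agent.Y121 Pool.Agent.Y121.AHS Pool.Agent.R920.MT Pool.Agent.R920.DB
  Pool.Agent.Y133.Per
open Pool.Agent.Y133.Half (pw HasIndex GeneratedOver dimBy cycRank ClassPred)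

variable {k : Type u} [Field k] {𝒱 : VarClass k} {ops : CycleOps 𝒱}

variable (T : HodgeTheory ops) {F : Subfield ℂ} (D : DeRham T.W F) (hD : IsGraded D) {X : 𝒱.Obj}

lemma not_generated (h : ¬ DRBAreHodge T D X) (N : ℕ∞) :
    ¬ GeneratedOver T.W (IsHodgeDRB T D) (IsDRB D) X N := by
  intro hG
  exact h (hodge_of_generated (T := toH T) (Q := both (AH.hodgePred (toH T)) (drbPred D))
    (S := drbPred D) (fun X j x hx => hx.1) hG)

include hD in
theorem main [Nontrivial (T.W.H X)] :
    (DRBAreHodge T D X ∧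
      HasIndex (fun n => dimBy T.W (IsDRB D) (pw X n))
        (fun n => dimBy T.W (IsHodgeDRB T D) (pw X n)) 1) ∨
    (¬ DRBAreHodge T D X ∧
      HasIndex (fun n => dimBy T.W (IsDRB D) (pw X n))
        (fun n => dimBy T.W (IsHodgeDRB T D) (pw X n)) ⊤ ∧
      HasIndex (fun n => dimBy T.W (IsDRB D) (pw X n))
        (fun n => dimBy T.W (IsMotivated T.W) (pw X n)) ⊤ ∧
      HasIndex (fun n => dimBy T.W (IsDRB D) (pw X n)) (fun n => cycRank ops (pw X n)) ⊤ ∧
      ∀ N, ¬ GeneratedOver T.W (IsHodgeDRB T D) (IsDRB D) X N) := by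
  have hnt : Nontrivial ((toH T).W.H X) := ‹Nontrivial (T.W.H X)›
  rcases zero_one (T := toH T) (S := drbPred D) (isSystem_drb hD).lift X with ⟨h1, h2⟩ | ⟨h1, h2, h3⟩
  · exact Or.inl ⟨h1, h2⟩
  · refine Or.inr ⟨?_, h2, ?_, h3, not_generated T D ?_⟩
    · intro h
      obtain ⟨n, j, c, hc, hc'⟩ := h1
      exact hc' (h n j c hc)
    · exact index_top (T := toH T) (Q := motPred T.W) (S := drbPred D)
        (fun X j x hx => IsMotivated.hodge (T := toH T) hx) (fun h => mot_drb hD h) X
        (fun n => Pool.Agent.R920.MT.mot_nondeg (toH T) (pw X n)) h1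
    · intro h
      obtain ⟨n, j, c, hc, hc'⟩ := h1
      exact hc' (h n j c hc)

include hD in
/-- All de Rham-Betti classes on all varieties are Hodge classes if and only if for no variety the
proportion of the Hodge classes tends to zero. -/
theorem global : (∀ (X : 𝒱.Obj) (j : ℕ) (c : T.W.H X), IsDRB D X j c → IsHodge T X j c) ↔
    ∀ X : 𝒱.Obj, Nontrivial (T.W.H X) →
      ¬ HasIndex (fun n => dimBy T.W (IsDRB D) (pw X n))
        (fun n => dimBy T.W (IsHodgeDRB T D) (pw X n)) ⊤ := by
  constructor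
  · intro h X hX h1
    rcases main T D hD (X := X) with ⟨-, h2⟩ | ⟨h2, -⟩
    · have h3 := tendsto_nhds_unique h1 h2
      exact absurd h3 (by simp)
    · exact h2 fun n j c hc => h _ _ _ hc
  · intro h X j c hc
    by_contra hcon
    have hnt : Nontrivial (T.W.H X) := by
      by_contra hn
      rw [not_nontrivial_iff_subsingleton] at hn
      apply hcon
      have h0 : AH.IsHodge (toH T) X j (0 : T.W.H X) := (AH.hodgePred (toH T)).zero
      have h1 : c = 0 := Subsingleton.elim _ _
      rw [h1]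
      exact h0
    rcases main T D hD (X := X) with ⟨h1, -⟩ | ⟨-, h1, -⟩
    · exact hcon (h1 0 j c hc)
    · exact h X hnt h1

end Pool.Agent.U128.ZO.DRB
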