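import Pool.Agent.U128.ZO.TatePred
import Pool.Agent.Y121.AH.Alg2

/-!
# The zero-one law for the Tate classes
-/

open CategoryTheory AlgebraicGeometry TensorProduct Filter Topology

open scoped ENNReal

universe u

namespace Pool.Agent.U128.ZO.Tate

open Module
open Pool.Agent.H914 Pool.Agent.H914.VarClass Pool.Agent.H914.VarClass.Obj
  Pool.Agent.H914.WeilCohomology
open Pool.Agent.Y121 Pool.Agent.Y121.AHS Pool.Agent.R920.MT
open Pool.Agent.Y121.AH (em em_add em_zero em_smul em_mul em_map em_push em_cl em_gr em_injective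
  Rlz CW gop psi ratAlg kap hodgePred xpw)
open Pool.Agent.Y133.Half

variable {k : Type u} [Field k] {𝒱 : VarClass k} {ops : CycleOps 𝒱}

section Lift

variable {W : WeilCohomology.{u, 0} ops} {L : Type} [Field L] [Algebra W.K L]
  {G : GaloisAction W L} {X Y : 𝒱.Obj}

lemma ac_pow {g : G.Γ} {w : (baseW W L).H X} {c : (baseW W L).K} (h : ac G X g w = c • w)
    (h1 : ac G X g 1 = 1) : ∀ m : ℕ, ac G X g (w ^ m) = c ^ m • w ^ m
  | 0 => by rw [pow_zero, pow_zero, h1, one_smul]
  | m + 1 => by rw [pow_succ, ac_mul, ac_pow h h1 m, h, smul_mul_smul_comm, ← pow_succ, ← pow_succ]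

lemma ac_one (g : G.Γ) : ac G X g 1 = 1 := by
  obtain ⟨x, hx⟩ := ac_surj g (1 : (baseW W L).H X)
  have h := ac_mul g x (1 : (baseW W L).H X)
  rw [mul_one, hx, one_mul] at h
  exact h.symm

variable (G)

lemma lift_rat : LiftClosed (ratPred G).P := by
  rintro X D j hD hL hj x hx ⟨-, hv⟩
  refine ⟨hx, isTate_iff.2 ⟨em_gr hx, ?_⟩⟩
  have h1 : powMul (W.cl X D) (X.dim - 2 * j) x = W.cl X D ^ (X.dim - 2 * j) * x := rfl
  rw [h1] at hv
  refine (((isTate_iff.1 hv).2).and (ac_cl hD)).mono fun g h => ?_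
  obtain ⟨h2, h3⟩ := h
  rw [pow_one] at h3
  set m := X.dim - 2 * j with hm
  have hem : ∀ n : ℕ, em W L (W.cl X D ^ n) = em W L (W.cl X D) ^ n := by
    intro n
    induction n with
    | zero => rw [pow_zero, pow_zero]; rfl
    | succ n ih => rw [pow_succ, pow_succ, em_mul, ih]
  have h4 := ac_pow h3 (ac_one g) m
  have h5 : ch G g ^ (X.dim - j) = ch G g ^ m * ch G g ^ j := by
    rw [← pow_add]; congr 1; omega
  rw [em_mul, hem, ac_mul, h4, h5, smul_mul_assoc, ← smul_smul] at h2
  have h6 := smul_right_injective _ (pow_ne_zero m (ch_ne G g)) h2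
  beta_reduce at h6
  rw [← sub_eq_zero]
  apply AH.mul_inj_base (W := W) (w := W.cl X D ^ m) (i := 2 * j)
    (fun y hy h => AH.hl_inj hL hj hy h)
  · exact Submodule.sub_mem _ (ac_gr g (em_gr hx)) (Submodule.smul_mem _ _ (em_gr hx))
  · rw [hem, mul_sub, h6, mul_smul_comm, sub_self]

end Lift

variable {T : HodgeTheory ops} {L : Type} [Field L] [Algebra T.W.K L] (G : GaloisAction T.W L)
  {X : 𝒱.Obj}

/-- The Hodge classes which are Tate classes. -/
noncomputable def htPred : ClassPred (toH T).W := both (hodgePred (toH T)) (ratPred G)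

/-- The system spanned by the Hodge classes which are Tate classes. -/
noncomputable def htSys : Sys (baseW T.W L) := (htPred G).sys.base L

lemma add_aux {W : WeilCohomology.{u, 0} ops} {L : Type} [Field L] [Algebra W.K L] {Z : 𝒱.Obj}
    (V : Submodule (baseW W L).K ((baseW W L).H Z)) (x y : W.H Z) (hx : em W L x ∈ V)
    (hy : em W L y ∈ V) : em W L (x + y) ∈ V := by
  rw [em_add]; exact Submodule.add_mem _ hx hy

lemma htSys_le (Z : 𝒱.Obj) : (htSys G).C Z ≤ (tatePred G).sys.C Z := by
  intro x hx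
  have hx' : x ∈ ((htPred G).sys.C Z).baseChange L := hx
  refine base_induction (P := fun x : L ⊗[T.W.K] T.W.H Z =>
    (show (baseW T.W L).H Z from x) ∈ (tatePred G).sys.C Z) ?_ ?_ ?_ hx'
  · exact Submodule.zero_mem _
  · intro x y hx hy; exact Submodule.add_mem _ hx hy
  · intro l a ha
    have h1 := AH.tmul_eq (W := T.W) (L := L) l a
    rw [h1]
    refine Submodule.smul_mem _ _ ?_
    refine ClassPred.sp_ind (Q := htPred G) (q := fun a => em T.W L a ∈ (tatePred G).sys.C Z)
      ?_ ?_ ?_ ha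
    · intro j x hx
      exact ClassPred.sp_of (Q := tatePred G) hx.2.2
    · have h2 : em T.W L (0 : T.W.H Z) ∈ (tatePred G).sys.C Z := by
        rw [em_zero]; exact Submodule.zero_mem _
      exact h2
    · intro x y hx hy
      exact add_aux _ x y hx hy

lemma htSys_nondeg (Z : 𝒱.Obj) : (htSys G).Nondeg Z :=
  (both_nondeg (T := toH T) (lift_rat G) Z).base L

/-- The realisation given by an embedding of the coefficients. -/
noncomputable def real (T : HodgeTheory ops) {L : Type} [Field L] [Algebra T.W.K L]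
    (τ : L →+* ℂ) : Rlz (baseW T.W L) (CW (toH T)) where
  s := kap T.W (ratAlg (toH T) τ)
  c := 1
  ne := one_ne_zero
  E X := psi T.W (ratAlg (toH T) τ) X
  semi X r a := AH.psi_smul _ r a
  gr h := AH.psi_gr _ h
  nat f b := AH.psi_map _ f b
  push f a := by
    rw [one_pow, one_pow, one_smul, one_smul]
    exact AH.psi_push _ f a

lemma add_aux' {W : WeilCohomology.{u, 0} ops} {T : AH.HodgeTheory ops} {L : Type} [Field L]
    [Algebra W.K L] {Z : 𝒱.Obj} (R : Rlz (baseW W L) (CW T)) (x y : W.H Z)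
    (hx : gop T Z (R.E Z (em W L x)) = R.E Z (em W L x))
    (hy : gop T Z (R.E Z (em W L y)) = R.E Z (em W L y)) :
    gop T Z (R.E Z (em W L (x + y))) = R.E Z (em W L (x + y)) := by
  rw [em_add, map_add, map_add, hx, hy]

lemma real_fix (τ : L →+* ℂ) {Z : 𝒱.Obj} {x : (baseW T.W L).H Z} (hx : x ∈ (htSys G).C Z) :
    gop (toH T) Z ((real T τ).E Z x) = (real T τ).E Z x := by
  have hx' : x ∈ ((htPred G).sys.C Z).baseChange L := hx
  refine base_induction (P := fun x : L ⊗[T.W.K] T.W.H Z =>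
    gop (toH T) Z ((real T τ).E Z (show (baseW T.W L).H Z from x)) =
      (real T τ).E Z (show (baseW T.W L).H Z from x)) ?_ ?_ ?_ hx'
  · have h : (real T τ).E Z (show (baseW T.W L).H Z from (0 : L ⊗[T.W.K] T.W.H Z)) = 0 :=
      map_zero ((real T τ).E Z)
    rw [h, map_zero]
  · intro x y hx hy
    have h : (real T τ).E Z (show (baseW T.W L).H Z from (x + y : L ⊗[T.W.K] T.W.H Z)) =
        (real T τ).E Z (show (baseW T.W L).H Z from x) +
          (real T τ).E Z (show (baseW T.W L).H Z from y) := map_add ((real T τ).E Z) _ _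
    rw [h, map_add, hx, hy]
  · intro l a ha
    have h1 := AH.tmul_eq (W := T.W) (L := L) l a
    rw [h1, (real T τ).semi, map_smul]
    congr 1
    refine ClassPred.sp_ind (Q := htPred G) (q := fun a =>
      gop (toH T) Z ((real T τ).E Z (em T.W L a)) = (real T τ).E Z (em T.W L a)) ?_ ?_ ?_ ha
    · intro j x hx
      have h2 : (real T τ).E Z (em T.W L x) = em T.W ℂ x := AH.psi_em _ x
      rw [h2]
      exact AH.gop_hodge (T := toH T) hx.1
    · have h2 : gop (toH T) Z ((real T τ).E Z (em T.W L (0 : T.W.H Z))) =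
          (real T τ).E Z (em T.W L (0 : T.W.H Z)) := by
        rw [em_zero, map_zero, map_zero]
      exact h2
    · intro x y hx hy
      exact add_aux' _ x y hx hy

/-- All members of a finitely generated family satisfy one relation. -/
lemma genS_rel {W : WeilCohomology.{u, 0} ops} {T : AH.HodgeTheory ops} (R : Rlz W (CW T))
    {S : Sys W} (hS : ∀ (Z : 𝒱.Obj) (x : W.H Z), x ∈ S.C Z → gop T Z (R.E Z x) = R.E Z x)
    {r : ℕ} (c : Fin r → Σ m, W.H (pw X m)) {n : ℕ} {z : W.H (pw X n)}
    (hz : z ∈ S.genS X c n) :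
    Polynomial.aeval (gop T (pw X n)) (pol T c) (R.E (pw X n) z) = 0 := by
  let V : Submodule W.K (W.H (pw X n)) :=
    { carrier := {z | Polynomial.aeval (gop T (pw X n)) (pol T c) (R.E (pw X n) z) = 0}
      zero_mem' := by
        change Polynomial.aeval (gop T (pw X n)) (pol T c) (R.E (pw X n) 0) = 0
        rw [map_zero, map_zero]
      add_mem' := fun {a b} ha hb => by
        change Polynomial.aeval (gop T (pw X n)) (pol T c) (R.E (pw X n) (a + b)) = 0
        have ha' : Polynomial.aeval (gop T (pw X n)) (pol T c) (R.E (pw X n) a) = 0 := ha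
        have hb' : Polynomial.aeval (gop T (pw X n)) (pol T c) (R.E (pw X n) b) = 0 := hb
        rw [map_add, map_add, ha', hb', add_zero]
      smul_mem' := fun l a ha => by
        change Polynomial.aeval (gop T (pw X n)) (pol T c) (R.E (pw X n) (l • a)) = 0
        have ha' : Polynomial.aeval (gop T (pw X n)) (pol T c) (R.E (pw X n) a) = 0 := ha
        rw [R.semi, map_smul, ha', smul_zero] }
  have hV : S.genS X c n ≤ V := by
    apply sup_le
    · intro z hz
      exact pol_fix c (hS _ z hz)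
    · apply iSup_le
      rintro i _ ⟨g, hg, rfl⟩
      obtain ⟨z', hz', rfl⟩ := Sys.mem_Op.1 hg
      obtain ⟨F, h1, h2⟩ := corr_comm R (P := pw X (c i).1) (Z := pw X n) (hS _ z' hz')
      change Polynomial.aeval (gop T (pw X n)) (pol T c) (R.E (pw X n) (W.corr z' (c i).2)) = 0
      rw [← h1, AH.aeval_comm h2, pol_self, LinearMap.zero_apply, map_zero]
  exact hV hz

/-- If all classes of a system satisfy one relation, then their realisations are fixed. -/
theorem fixed_of_rel {W : WeilCohomology.{u, 0} ops} {T : AH.HodgeTheory ops} (R : Rlz W (CW T))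
    {S : ClassPred W} {μ : Polynomial (CW T).K} (hμ : μ ≠ 0)
    (h : ∀ n z, z ∈ S.sys.C (pw X n) →
      Polynomial.aeval (gop T (pw X n)) μ (R.E (pw X n) z) = 0) {n j : ℕ} {v : W.H (pw X n)}
    (hv : S.P (pw X n) j v) : gop T (pw X n) (R.E (pw X n) v) = R.E (pw X n) v := by
  refine fix_of_rel' R hμ (S.gr hv) fun m => ?_
  obtain ⟨s, ⟨θ⟩⟩ := AH.pw_pw X n m
  have h1 : S.P (pw X s) _ (W.map θ.inv (xpw W v m)) := S.map θ.inv (xpw_P S hv m)
  have h2 := h s _ (ClassPred.sp_of (Q := S) h1)
  have h3 : W.map θ.hom (W.map θ.inv (xpw W v m)) = xpw W v m := by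
    have h4 := W.map_comp θ.hom θ.inv
    have h5 : W.map (θ.hom ≫ θ.inv) (xpw W v m) = xpw W v m := by
      rw [θ.hom_inv_id, W.map_id]
    rw [h4] at h5
    exact h5
  have h6 : R.E (pw (pw X n) m) (xpw W v m) =
      (CW T).map θ.hom (R.E (pw X s) (W.map θ.inv (xpw W v m))) := by
    rw [← R.nat, h3]
  have h7 := AH.aeval_comm (g := gop T (pw X s)) (g' := gop T (pw (pw X n) m))
    (F := ((CW T).map θ.hom).toLinearMap) (fun x => AH.gop_map θ.hom x) μ
    (R.E (pw X s) (W.map θ.inv (xpw W v m)))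
  rw [h2, map_zero] at h7
  rw [h6]
  exact h7

lemma tateAreHodge_of_rel (τ : L →+* ℂ) {r : ℕ} (c : Fin r → Σ m, (baseW T.W L).H (pw X m))
    (h : ∀ n, (tatePred G).sys.C (pw X n) = (htSys G).genS X c n) : TateAreHodge T G X := by
  intro n j x hx
  refine AH.mem_span_hodge (T' := toH T) (X := pw X n) τ fun g => ?_
  have h1 : gop (toH T) (pw X n) ((real T (g.toRingHom.comp τ)).E (pw X n) x) =
      (real T (g.toRingHom.comp τ)).E (pw X n) x :=
    fixed_of_rel (real T (g.toRingHom.comp τ)) (S := tatePred G) (pol_ne c)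
      (fun n z hz => genS_rel (real T (g.toRingHom.comp τ))
        (fun Z x hx => real_fix G (g.toRingHom.comp τ) hx) c (by rw [← h n]; exact hz)) hx
  exact AH.pq_of_fix' ((real T (g.toRingHom.comp τ)).gr hx.1) h1

lemma finrank_htSys (Z : 𝒱.Obj) :
    finrank (baseW T.W L).K ((htSys G).C Z) = hodgeTateDim T G Z := by
  have h1 : finrank (baseW T.W L).K ((htSys G).C Z) =
      finrank (toH T).W.K ((htPred G).sys.C Z) :=
    (htPred G).sys.finrank_base L Z
  rw [h1]
  have h2 : {c : T.W.H Z | ∃ j, (htPred G).P Z j c} = {c | ∃ j, IsHodgeTate T G Z j c} := by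
    ext c
    constructor
    · rintro ⟨j, h⟩; exact ⟨j, h.1, h.2.2⟩
    · rintro ⟨j, h⟩; exact ⟨j, h.1, h.1.1, h.2⟩
  have h3 : finrank (toH T).W.K ((htPred G).sys.C Z) =
      dimOf T.W {c : T.W.H Z | ∃ j, (htPred G).P Z j c} := rfl
  rw [h3, h2]
  rfl

/-- The index of the Hodge classes which are Tate classes in the Tate classes. -/
theorem index (τ : L →+* ℂ) (X : 𝒱.Obj) [Nontrivial (T.W.H X)] :
    ∃ N : ℕ∞, 1 ≤ N ∧
      HasIndex (fun n => tateDim G (pw X n)) (fun n => hodgeTateDim T G (pw X n)) N ∧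
      (N ≠ ⊤ → TateAreHodge T G X) := by
  have hnt : Nontrivial ((baseW T.W L).H X) := Pool.Agent.Y129.nontrivial_base L
  have hS : ∀ n, (htSys G).Nondeg (pw X n) := fun n => htSys_nondeg G _
  have hG := Sys.stab_of_le (S := htSys G) (T := (tatePred G).sys) (htSys_le G) (X := X)
  obtain ⟨N, h1, h2, -, -⟩ := Sys.stab_index hS hG fun n => htSys_le G _
  refine ⟨N, h1, ?_, fun hN => ?_⟩
  · unfold HasIndex
    refine Tendsto.congr (fun n => ?_) h2
    rw [finrank_htSys]
    rfl
  · obtain ⟨r, c, -, -, h3⟩ := Sys.ind_generators hS hG (fun n => htSys_le G _) h2 hN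
      (fun n => {c | ∃ j, (tatePred G).P (pw X n) j c}) fun n => rfl
    exact tateAreHodge_of_rel G τ c h3

lemma algDim_le (Z : 𝒱.Obj) : algDim T.W Z ≤ hodgeTateDim T G Z := by
  have h1 : algSet T.W Z ⊆ {c | ∃ j, IsHodgeTate T G Z j c} := by
    rintro c ⟨j, z, hz, rfl⟩
    exact ⟨j, (hodgePred (toH T)).cl hz, (tatePred G).cl hz⟩
  exact Submodule.finrank_mono (Submodule.span_mono h1)

/-- The algebraic classes have density zero if there is a Tate class which is not a combination of
Hodge classes. -/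
theorem alg_top (τ : L →+* ℂ) (X : 𝒱.Obj) [Nontrivial (T.W.H X)] (h : ¬ TateAreHodge T G X) :
    HasIndex (fun n => tateDim G (pw X n)) (fun n => algDim T.W (pw X n)) ⊤ := by
  obtain ⟨N, -, h2, h3⟩ := index G τ X
  have hN : N = ⊤ := by
    by_contra hN
    exact h (h3 hN)
  subst hN
  unfold HasIndex at h2 ⊢
  refine tendsto_nhds_top_mono h2 (Eventually.of_forall fun n => ?_)
  apply ENNReal.div_le_div_left
  exact_mod_cast algDim_le G (pw X n)

/-- If the algebraic classes have positive density among the Tate classes on infinitely many powers,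
then the Tate classes are combinations of Hodge classes. -/
theorem hodge_of_density (τ : L →+* ℂ) (X : 𝒱.Obj) [Nontrivial (T.W.H X)] {ε : ℝ} (hε : 0 < ε)
    (h : ∀ n₀ : ℕ, ∃ n ≥ n₀, ε * tateDim G (pw X n) ≤ hodgeTateDim T G (pw X n)) :
    TateAreHodge T G X := by
  obtain ⟨N, -, h2, h3⟩ := index G τ X
  by_cases hN : N = ⊤
  · exfalso
    subst hN
    have h4 := ratio_zero h2
    rw [Metric.tendsto_atTop] at h4
    obtain ⟨n₀, hn₀⟩ := h4 ε hε
    obtain ⟨n, hn, h5⟩ := h n₀
    have h6 := hn₀ n hn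
    have h7 : (0 : ℝ) ≤ (hodgeTateDim T G (pw X n) : ℝ) / tateDim G (pw X n) := by positivity
    rw [Real.dist_eq, sub_zero, abs_of_nonneg h7] at h6
    have hnt : Nontrivial ((baseW T.W L).H X) := Pool.Agent.Y129.nontrivial_base L
    have h8 : 0 < tateDim G (pw X n) := (tatePred G).sys.finrank_pos_pw (X := X) n
    have h9 : (0 : ℝ) < tateDim G (pw X n) := by exact_mod_cast h8
    rw [div_lt_iff₀ h9] at h6
    linarith
  · exact h3 hN

end Pool.Agent.U128.ZO.Tate
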