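import Pool.Agent.U128.ZO.Orbit
import Pool.Agent.U128.ZO.Tate

/-!
# If the index is finite, then the Hodge classes are Tate classes
-/

open CategoryTheory AlgebraicGeometry TensorProduct Filter Topology

open scoped ENNReal

universe u

namespace Pool.Agent.U128.ZO.Tate

open Module
open Pool.Agent.H914 Pool.Agent.H914.VarClass Pool.Agent.H914.VarClass.Obj
  Pool.Agent.H914.WeilCohomology
open Pool.Agent.Y121 Pool.Agent.Y121.AHS Pool.Agent.R920.MT
open Pool.Agent.Y121.AH (em em_add em_zero em_smul em_mul em_map em_push em_cl em_gr em_injective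
  xpw tr_xpw em_xpw em_corr hodgePred)
open Pool.Agent.Y133.Half

variable {k : Type u} [Field k] {𝒱 : VarClass k} {ops : CycleOps 𝒱}

section Core

variable {W : WeilCohomology.{u, 0} ops} {L : Type} [Field L] [Algebra W.K L]
  {G : GaloisAction W L} {X Z : 𝒱.Obj}

lemma ac_inj (g : G.Γ) {x : (baseW W L).H X} (h : ac G X g x = 0) : x = 0 := by
  have h1 : Function.Injective (ac G X g) :=
    LinearMap.injective_iff_surjective.2 fun y => ac_surj g y
  exact h1 (h.trans (map_zero _).symm)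

/-- Classes of degree `2 j` can be separated by one class. -/
lemma exists_sep {V : WeilCohomology.{u, 0} ops} [Infinite V.K] {j : ℕ} (hj : j ≤ Z.dim) {m : ℕ}
    {y : Fin m → V.H Z} (hy : ∀ k, y k ∈ V.gr Z (2 * j)) (hinj : Function.Injective y)
    (h0 : ∀ k, y k ≠ 0) : ∃ u ∈ PH V Z 0, Function.Injective (fun k => V.tr Z (y k * u)) ∧
      ∀ k, V.tr Z (y k * u) ≠ 0 := by
  let d : {p : Fin m × Fin m // p.1 ≠ p.2} ⊕ Fin m → V.H Z :=
    Sum.elim (fun p => y p.1.1 - y p.1.2) y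
  have hd0 : ∀ i, d i ≠ 0 := by
    rintro (p | k)
    · exact sub_ne_zero.2 fun h => p.2 (hinj h)
    · exact h0 k
  have hd : ∀ i, d i ∈ V.gr Z (2 * j) := by
    rintro (p | k)
    · exact Submodule.sub_mem _ (hy _) (hy _)
    · exact hy k
  let p : {p : Fin m × Fin m // p.1 ≠ p.2} ⊕ Fin m → Submodule V.K (V.H Z) := fun i =>
    LinearMap.ker (V.tr Z ∘ₗ LinearMap.mulLeft V.K (d i))
  have hp : ∀ i, p i ≠ ⊤ := by
    intro i h
    apply hd0 i
    apply V.nondeg
    intro u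
    have h1 : u ∈ p i := by rw [h]; trivial
    exact h1
  obtain ⟨u, hu⟩ : ∃ u : V.H Z, ∀ i, u ∉ p i := by
    by_contra hcon
    push Not at hcon
    obtain ⟨i, hi⟩ := Subspace.exists_eq_top_of_iUnion_eq_univ (k := V.K) (E := V.H Z) (p := p)
      (Set.eq_univ_of_forall fun u => Set.mem_iUnion.2 (hcon u))
    exact hp i hi
  have hu' : ∀ i, V.tr Z (d i * H914.proj (V.isInternal Z) (2 * (Z.dim - j)) u) ≠ 0 := by
    intro i
    rw [AH.tr_proj hj (hd i)]
    exact hu i
  refine ⟨H914.proj (V.isInternal Z) (2 * (Z.dim - j)) u, PH.of' (by omega) (proj_mem _ _ _),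
    fun a b hab => ?_, fun a => hu' (Sum.inr a)⟩
  by_contra hne
  have h1 := hu' (Sum.inl ⟨(a, b), hne⟩)
  apply h1
  have h2 : d (Sum.inl ⟨(a, b), hne⟩) = y a - y b := rfl
  rw [h2, sub_mul, map_sub, sub_eq_zero]
  exact hab

/-- **The number of the conjugates of a class is bounded** by the dimension of the space of
parameters. -/
lemma no_many [Infinite L] {r : ℕ} {c : Fin r → Σ m, W.H (pw X m)} {e : Fin r → ℕ} {j : ℕ}
    (hj : j ≤ Z.dim) {v : (baseW W L).H Z} (hv : v ∈ (baseW W L).gr Z (2 * j)) (hv0 : v ≠ 0)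
    (hgood : ∀ s, Good G c e (j * (s + 1)) (xpw (baseW W L) v s)) :
    ∃ U : Subgroup G.Γ, U.FiniteIndex ∧
      ∀ g : Fin (finrank (baseW W L).K (Par L c) + 1) → G.Γ, (∀ i, g i ∈ U) →
        ¬ Function.Injective fun i => (ch G (g i) ^ j)⁻¹ • ac G Z (g i) v := by
  have hinf : Infinite (baseW W L).K := ‹Infinite L›
  choose Φ hΦ hΦ2 using hgood
  obtain ⟨U, hU, hUs⟩ := Virtually.all (fun s => (hΦ2 s).and (ac_xpw (G := G) Z s))
    (finrank (baseW W L).K (Par L c))
  refine ⟨U, hU, fun g hg hinj => ?_⟩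
  set y : Fin (finrank (baseW W L).K (Par L c) + 1) → (baseW W L).H Z :=
    fun i => (ch G (g i) ^ j)⁻¹ • ac G Z (g i) v with hy
  -- the conjugates are not zero
  have hcne : ∀ i (l : ℕ), ch G (g i) ^ l ≠ 0 := fun i l => pow_ne_zero _ (ch_ne G _)
  have hyg : ∀ i, y i ∈ (baseW W L).gr Z (2 * j) := fun i =>
    Submodule.smul_mem _ _ (ac_gr _ hv)
  have hpow : ∀ i, ∀ s ≤ finrank (baseW W L).K (Par L c),
      xpw (baseW W L) (y i) s = Φ s (pac G c e (g i) (pt L c)) := by
    intro i s hs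
    obtain ⟨h1, h2⟩ := hUs (g i) (hg i) s hs
    rw [hy]
    beta_reduce
    rw [xpw_smul, ← h2, ← hΦ s, h1, smul_smul, inv_pow, ← pow_mul,
      inv_mul_cancel₀ (hcne i _), one_smul]
  have hy0 : ∀ i, y i ≠ 0 := by
    intro i h
    have h2 : ac G Z (g i) v = 0 := by
      have h3 := congrArg (fun x => ch G (g i) ^ j • x) h
      rw [hy] at h3
      beta_reduce at h3
      rwa [smul_smul, mul_inv_cancel₀ (hcne i _), one_smul, smul_zero] at h3
    apply hv0
    exact ac_inj (g i) h2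
  obtain ⟨u, hu, hui, hu0⟩ := exists_sep (V := baseW W L) hj hyg hinj hy0
  refine Orb.core (fun i => pac G c e (g i) (pt L c)) hui hu0 fun s hs a ha => ?_
  have h1 : ∑ i, a i • xpw (baseW W L) (y i) s = 0 := by
    have h2 := congrArg (Φ s) ha
    rw [map_sum, map_zero] at h2
    rw [← h2]
    refine Finset.sum_congr rfl fun i _ => ?_
    rw [map_smul, hpow i s hs]
  have h3 := congrArg (fun x => (baseW W L).tr (pw Z s) (x * xpw (baseW W L) u s)) h1
  beta_reduce at h3
  rw [Finset.sum_mul, map_sum, zero_mul, map_zero] at h3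
  rw [← h3]
  refine Finset.sum_congr rfl fun i _ => ?_
  have h5 : (baseW W L).tr (pw Z s) (xpw (baseW W L) (y i) s * xpw (baseW W L) u s) =
      (baseW W L).tr Z (y i * u) ^ (s + 1) := tr_xpw (PH.of' (by omega) (hyg i)) hu s
  calc a i * (baseW W L).tr Z (y i * u) ^ (s + 1)
      = a i * (baseW W L).tr (pw Z s) (xpw (baseW W L) (y i) s * xpw (baseW W L) u s) := by
        rw [h5]
    _ = _ := by
      rw [smul_mul_assoc (a i) (xpw (baseW W L) (y i) s), map_smul, smul_eq_mul]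

/-- The twisted action. -/
lemma tw_fix (hG : IsRep G) {j : ℕ} {v : (baseW W L).H Z} {U : Subgroup G.Γ}
    (hU : U.FiniteIndex) (hfin : {y | ∃ g ∈ U, (ch G g ^ j)⁻¹ • ac G Z g v = y}.Finite) :
    Virtually fun g : G.Γ => ac G Z g v = ch G g ^ j • v := by
  obtain ⟨hχ, hact⟩ := hG
  obtain ⟨U', hU', hact⟩ := hact Z
  have hχ1 : ch G 1 = 1 := by
    have h1 : ch G 1 * ch G 1 = ch G 1 * 1 := by
      rw [mul_one]
      have h2 := hχ 1 1
      rw [one_mul] at h2
      exact h2.symm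
    exact mul_left_cancel₀ (ch_ne G 1) h1
  have hmul : ∀ g ∈ U', ∀ h ∈ U', ∀ x, ac G Z (g * h) x = ac G Z g (ac G Z h x) := hact
  have hχm : ∀ g h, ch G (g * h) = ch G g * ch G h := hχ
  have hone : ∀ x, ac G Z 1 x = x := by
    intro x
    obtain ⟨x, rfl⟩ := ac_surj (1 : G.Γ) x
    rw [← hmul 1 U'.one_mem 1 U'.one_mem, one_mul]
  have h1 := Orb.stab_of_finite (U ⊓ U') inferInstance
    (fun g x => (ch G g ^ j)⁻¹ • ac G Z g x) (fun g hg h hh x => by
      rw [map_smul, smul_smul, hmul g hg.2 h hh.2, hχm, mul_pow, mul_inv])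
    (fun x => by rw [hχ1, hone, one_pow, inv_one, one_smul])
    (v := v) (hfin.subset (by rintro y ⟨g, hg, rfl⟩; exact ⟨g, hg.1, rfl⟩))
  obtain ⟨V, hV, h2⟩ := h1
  refine ⟨V, hV, fun g hg => ?_⟩
  have h3 := h2 g hg
  beta_reduce at h3
  rwa [inv_smul_eq_iff₀ (pow_ne_zero _ (ch_ne G g))] at h3

/-- **Classes which are generated by finitely many ones over Tate classes are Tate classes.** -/
theorem tate_of_generated [Infinite L] (hG : IsRep G) {Q S : ClassPred W}
    (hQ : ∀ (X : 𝒱.Obj) (j : ℕ) (x : W.H X), Q.P X j x → IsTate G X j (em W L x)) {N : ℕ∞}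
    (h : GeneratedOver W Q.P S.P X N) (n j : ℕ) (v : W.H (pw X n)) (hv : S.P (pw X n) j v) :
    IsTate G (pw X n) j (em W L v) := by
  refine isTate_iff.2 ⟨em_gr (S.gr hv), ?_⟩
  by_cases hv0 : em W L v = 0
  · rw [hv0]
    exact Virtually.of fun g => by rw [map_zero, smul_zero]
  have hj : j ≤ (pw X n).dim := by
    by_contra hj
    apply hv0
    have h1 := S.gr hv
    rw [W.gr_eq_bot (pw X n) _ (by omega)] at h1
    rw [(Submodule.mem_bot _).1 h1, em_zero]
  obtain ⟨r, c, -, hc, hgen⟩ := h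
  choose e he using hc
  have hgood : ∀ s, Good G c e (j * (s + 1)) (xpw (baseW W L) (em W L v) s) := by
    intro s
    rw [← em_xpw]
    obtain ⟨t, ⟨θ⟩⟩ := AH.pw_pw X n s
    have h2 : S.P (pw X t) _ (W.map θ.inv (xpw W v s)) := S.map θ.inv (xpw_P S hv s)
    have h3 := good_of_genOver (G := G) (e := e) hQ (fun i => S.gr (he i)) (j * (s + 1))
      (hgen _ _ _ h2)
    rw [proj_same _ (S.gr h2)] at h3
    have h4 := h3.map θ.hom
    rw [em_map] at h4
    have h5 : W.map θ.hom (W.map θ.inv (xpw W v s)) = xpw W v s := by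
      have h6 := W.map_comp θ.hom θ.inv
      have h7 : W.map (θ.hom ≫ θ.inv) (xpw W v s) = xpw W v s := by
        rw [θ.hom_inv_id, W.map_id]
      rw [h6] at h7
      exact h7
    rwa [h5] at h4
  obtain ⟨U, hU, h1⟩ := no_many hj (em_gr (S.gr hv)) hv0 hgood
  exact tw_fix hG hU (Orb.finite_of_no h1)

end Core

end Pool.Agent.U128.ZO.Tate
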