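import Pool.Agent.U128.ZO.Rel
import Pool.Agent.R920.DB.Main
import Pool.Agent.Y121.AHS.Conv

/-!
# The zero-one law for systems of classes in a Hodge theory
-/

open CategoryTheory AlgebraicGeometry TensorProduct Filter Topology

open scoped ENNReal

universe u

namespace Pool.Agent.U128.ZO

open Module
open Pool.Agent.H914 Pool.Agent.H914.VarClass Pool.Agent.H914.VarClass.Obj
  Pool.Agent.H914.WeilCohomology
open Pool.Agent.Y133.Half Pool.Agent.Y121.AH Pool.Agent.R920.MT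

variable {k : Type u} [Field k] {𝒱 : VarClass k} {ops : CycleOps 𝒱}

/-- The classes with both properties. -/
def both {W : WeilCohomology.{u, 0} ops} (Q S : ClassPred W) : ClassPred W where
  P X j c := Q.P X j c ∧ S.P X j c
  gr h := Q.gr h.1
  zero := ⟨Q.zero, S.zero⟩
  add ha hb := ⟨Q.add ha.1 hb.1, S.add ha.2 hb.2⟩
  smul r _ ha := ⟨Q.smul r ha.1, S.smul r ha.2⟩
  cl hz := ⟨Q.cl hz, S.cl hz⟩
  mul ha hb := ⟨Q.mul ha.1 hb.1, S.mul ha.2 hb.2⟩
  map f _ _ h := ⟨Q.map f h.1, S.map f h.2⟩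
  push f _ _ hl _ h := ⟨Q.push f hl h.1, S.push f hl h.2⟩

variable (T : HodgeTheory ops)

/-- The rational classes in the complex cohomology. -/
noncomputable def idR : Rlz T.W (CW T) where
  s := algebraMap T.W.K ℂ
  c := 1
  ne := one_ne_zero
  E X := (Algebra.TensorProduct.includeRight : T.W.H X →ₐ[T.W.K] ℂ ⊗[T.W.K] T.W.H X).toRingHom
  semi _ r a := em_smul r a
  gr ha := em_gr ha
  nat f b := (em_map f b).symm
  push f a := by
    rw [one_pow, one_pow, one_smul, one_smul]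
    exact (em_push f a).symm

lemma idR_apply {X : 𝒱.Obj} (a : T.W.H X) : (idR T).E X a = em T.W ℂ a := rfl

variable {T}

lemma lifts_both {S : ClassPred T.W} (hS : LiftClosed S.P) : Lifts T (both (hodgePred T) S) := by
  intro X D hD j hj v hv
  obtain ⟨x, hx, hxv⟩ := lifts_hodge T X D hD j hj v hv.1
  refine ⟨x, ⟨hx, hS X D j hD.1 hD.2.1 hj x hx.1 ?_⟩, hxv⟩
  change S.P X (X.dim - j) (T.W.cl X D ^ (X.dim - 2 * j) * x)
  rw [hxv]
  exact hv.2

lemma both_nondeg {S : ClassPred T.W} (hS : LiftClosed S.P) (X : 𝒱.Obj) :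
    (both (hodgePred T) S).sys.Nondeg X :=
  fun _ hx h => q_nondeg_sys (Q := both (hodgePred T) S) (fun h => h.1) (lifts_both hS) hx h

lemma fixes_hodge (Q : ClassPred T.W) (hQ : ∀ (X : 𝒱.Obj) (j : ℕ) (x : T.W.H X), Q.P X j x →
    IsHodge T X j x) : Fixes (idR T) Q :=
  fun X j x hx => gop_hodge (hQ X j x hx)

/-- If the index is finite, all classes of the system are Hodge classes. -/
theorem hodge_of_generated {Q S : ClassPred T.W}
    (hQ : ∀ (X : 𝒱.Obj) (j : ℕ) (x : T.W.H X), Q.P X j x → IsHodge T X j x) {X : 𝒱.Obj} {N : ℕ∞}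
    (hG : GeneratedOver T.W Q.P S.P X N) (n j : ℕ) (v : T.W.H (pw X n)) (hv : S.P (pw X n) j v) :
    IsHodge T (pw X n) j v := by
  obtain ⟨r, c, -, -, hc⟩ := hG
  exact isHodge_of_fix (S.gr hv) (fixed_of_generated (idR T) (fixes_hodge Q hQ) c hc hv)

/-- A sequence with infinite index. -/
lemma ratio_zero {t s : ℕ → ℕ} (h : HasIndex t s ⊤) :
    Tendsto (fun n => (s n : ℝ) / t n) atTop (𝓝 0) := by
  rw [Metric.tendsto_atTop]
  intro ε hε
  obtain ⟨N, hN⟩ := exists_nat_gt (1 / ε)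
  unfold HasIndex at h
  have h1 : ∀ᶠ n in atTop, ((N : ℕ) : ℝ≥0∞) < (t n : ℝ≥0∞) / s n :=
    h.eventually (lt_mem_nhds (by simp))
  obtain ⟨n₀, hn₀⟩ := eventually_atTop.1 h1
  refine ⟨n₀, fun n hn => ?_⟩
  have h2 := hn₀ n hn
  have h3 : (0 : ℝ) ≤ (s n : ℝ) / t n := by positivity
  rw [Real.dist_eq, sub_zero, abs_of_nonneg h3]
  rcases Nat.eq_zero_or_pos (s n) with h4 | h4
  · rw [h4, Nat.cast_zero, zero_div]; exact hε
  · have h5 : (N : ℝ≥0∞) * s n ≤ t n := by
      rw [← ENNReal.le_div_iff_mul_le (Or.inl (by exact_mod_cast h4.ne'))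
        (Or.inl (ENNReal.natCast_ne_top _))]
      exact h2.le
    have h6 : (N : ℝ) * s n ≤ t n := by exact_mod_cast h5
    have h7 : (0 : ℝ) < s n := by exact_mod_cast h4
    have h8 : (0 : ℝ) < 1 / ε := by positivity
    have h9 : (0 : ℝ) < t n := lt_of_lt_of_le (mul_pos (h8.trans hN) h7) h6
    rw [div_lt_iff₀ h9]
    have h10 : 1 < ε * N := by
      rw [div_lt_iff₀ hε] at hN
      linarith
    nlinarith [mul_lt_mul_of_pos_right h10 h7, mul_le_mul_of_nonneg_left h6 hε.le]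

lemma top_mul_of_one_le {M : ℕ∞} (h : 1 ≤ M) : (⊤ : ℕ∞) * M = ⊤ :=
  ENat.top_mul (fun h0 => by rw [h0] at h; exact absurd h (by decide))

/-- **The zero-one law** for the Hodge classes in a system of classes with the Lefschetz
isomorphisms. -/
theorem zero_one {S : ClassPred T.W} (hS : LiftClosed S.P) (X : 𝒱.Obj) [Nontrivial (T.W.H X)] :
    ((∀ n j c, S.P (pw X n) j c → IsHodge T (pw X n) j c) ∧
      HasIndex (fun n => dimBy T.W S.P (pw X n))
        (fun n => dimBy T.W (both (hodgePred T) S).P (pw X n)) 1) ∨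
    ((∃ n j c, S.P (pw X n) j c ∧ ¬ IsHodge T (pw X n) j c) ∧
      HasIndex (fun n => dimBy T.W S.P (pw X n))
        (fun n => dimBy T.W (both (hodgePred T) S).P (pw X n)) ⊤ ∧
      HasIndex (fun n => dimBy T.W S.P (pw X n)) (fun n => cycRank ops (pw X n)) ⊤) := by
  obtain ⟨N, M, h1, h2, h3, -, h5, h6, -, -, -, h10, -⟩ := ClassPred.tower
    (both (hodgePred T) S) S (fun h => h.2) X (fun n => both_nondeg hS (pw X n))
  by_cases hN : N = ⊤
  · right
    subst hN
    rw [top_mul_of_one_le h2] at h5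
    refine ⟨?_, h3, h5⟩
    by_contra hcon
    push Not at hcon
    have h11 : (⊤ : ℕ∞) = 1 := h6.2 fun n j c hc => ⟨hcon n j c hc, hc⟩
    exact absurd h11 (by decide)
  · left
    have h12 := hodge_of_generated (Q := both (hodgePred T) S) (fun X j x hx => hx.1) (h10 hN)
    refine ⟨h12, ?_⟩
    have h13 : N = 1 := h6.2 fun n j c hc => ⟨h12 n j c hc, hc⟩
    rw [h13] at h3
    exact h3

/-- The index over a nondegenerate system of Hodge classes is infinite if there is a class which is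
not a Hodge class. -/
theorem index_top {Q S : ClassPred T.W}
    (hQ : ∀ (X : 𝒱.Obj) (j : ℕ) (x : T.W.H X), Q.P X j x → IsHodge T X j x)
    (hQS : ∀ {Z : 𝒱.Obj} {j : ℕ} {c : T.W.H Z}, Q.P Z j c → S.P Z j c) (X : 𝒱.Obj)
    [Nontrivial (T.W.H X)] (hnd : ∀ n, Q.sys.Nondeg (pw X n))
    (h : ∃ n j c, S.P (pw X n) j c ∧ ¬ IsHodge T (pw X n) j c) :
    HasIndex (fun n => dimBy T.W S.P (pw X n)) (fun n => dimBy T.W Q.P (pw X n)) ⊤ := by
  obtain ⟨N, M, -, -, h3, -, -, -, -, -, -, h10, -⟩ := ClassPred.tower Q S hQS X hnd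
  have hN : N = ⊤ := by
    by_contra hN
    obtain ⟨n, j, c, hc, hc'⟩ := h
    exact hc' (hodge_of_generated hQ (h10 hN) n j c hc)
  rw [hN] at h3
  exact h3

end Pool.Agent.U128.ZO
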