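import Pool.Agent.Y121.AH.Alg2

/-!
# Vectors whose powers depend linearly on few parameters
-/

open CategoryTheory AlgebraicGeometry

universe u

namespace Pool.Agent.U128.ZO.Orb

open Module

/-- The numbers `t k` with many power sums determined by few parameters cannot be distinct. -/
lemma core {K : Type*} [Field K] {W : Type*} [AddCommGroup W] [Module K W]
    [FiniteDimensional K W] (w : Fin (finrank K W + 1) → W) {t : Fin (finrank K W + 1) → K}
    (ht : Function.Injective t) (h0 : ∀ k, t k ≠ 0)
    (h : ∀ s ≤ finrank K W, ∀ a : Fin (finrank K W + 1) → K, ∑ k, a k • w k = 0 →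
      ∑ k, a k * t k ^ (s + 1) = 0) : False := by
  have h1 : ¬ LinearIndependent K w := by
    intro h2
    have h3 := h2.fintype_card_le_finrank
    rw [Fintype.card_fin] at h3
    omega
  rw [Fintype.not_linearIndependent_iff] at h1
  obtain ⟨a, ha, k, hk⟩ := h1
  have h2 : (fun k => a k * t k) = 0 := by
    refine Matrix.eq_zero_of_forall_pow_sum_mul_pow_eq_zero ht fun i => ?_
    rw [← h i (by omega) a ha]
    refine Finset.sum_congr rfl fun j _ => ?_
    rw [pow_succ', mul_assoc]
  have h3 := congrFun h2 k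
  exact (mul_ne_zero hk (h0 k)) h3

/-- A group element fixes a vector with finite orbit virtually. -/
lemma stab_of_finite {Γ : Type} [Group Γ] {V : Type} (U : Subgroup Γ) (hU : U.FiniteIndex)
    (A : Γ → V → V) (hA : ∀ g ∈ U, ∀ h ∈ U, ∀ x, A (g * h) x = A g (A h x))
    (h1 : ∀ x, A 1 x = x) {v : V} (hfin : {y | ∃ g ∈ U, A g v = y}.Finite) :
    ∃ U' : Subgroup Γ, U'.FiniteIndex ∧ ∀ g ∈ U', A g v = v := by
  let act : MulAction U V :=
    { smul := fun g x => A g x
      one_smul := fun x => h1 x
      mul_smul := fun g h x => hA g g.2 h h.2 x }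
  have horb : (MulAction.orbit U v).Finite := by
    refine hfin.subset ?_
    rintro _ ⟨g, rfl⟩
    exact ⟨g, g.2, rfl⟩
  have hidx : (MulAction.stabilizer U v).index ≠ 0 := by
    rw [MulAction.index_stabilizer]
    intro h
    rw [Set.ncard_eq_zero horb] at h
    exact (MulAction.nonempty_orbit v).ne_empty h
  refine ⟨(MulAction.stabilizer U v).map U.subtype, ⟨?_⟩, ?_⟩
  · have h2 := Subgroup.index_map_subtype (H := U) (MulAction.stabilizer U v)
    rw [h2]
    exact mul_ne_zero hidx hU.index_ne_zero
  · rintro _ ⟨g, hg, rfl⟩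
    exact hg

/-- If there are no `n + 1` elements with distinct values, there are only finitely many values. -/
lemma finite_of_no {G V : Type*} {S : Set G} {f : G → V} {n : ℕ}
    (h : ∀ g : Fin (n + 1) → G, (∀ k, g k ∈ S) → ¬ Function.Injective fun k => f (g k)) :
    {y | ∃ g ∈ S, f g = y}.Finite := by
  by_contra hcon
  obtain ⟨T, hT, hc⟩ := (Set.Infinite.exists_subset_card_eq (s := {y | ∃ g ∈ S, f g = y}) hcon
    (n + 1))
  let e := T.equivFinOfCardEq hc
  have h1 : ∀ k : Fin (n + 1), ∃ g ∈ S, f g = (e.symm k : V) := fun k => hT (e.symm k).2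
  choose g hg hfg using h1
  refine h g hg fun k l hkl => ?_
  beta_reduce at hkl
  rw [hfg, hfg] at hkl
  exact e.symm.injective (Subtype.ext hkl)

end Pool.Agent.U128.ZO.Orb
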