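import Pool.Agent.U128.ZO.TateDefs

/-!
# Hodge classes and Tate classes: definitions
-/

set_option autoImplicit false

open CategoryTheory AlgebraicGeometry

universe u

namespace Pool.Agent.U128.ZO.Tate

open Pool.Agent.H914 Pool.Agent.H914.VarClass Pool.Agent.H914.VarClass.Obj
  Pool.Agent.H914.WeilCohomology
open Pool.Agent.Y121.AHS
open Pool.Agent.Y133.Half (pw)

variable {k : Type u} [Field k] {𝒱 : VarClass k} {ops : CycleOps 𝒱}

/-- The cyclotomic character is a homomorphism and, for every variety `X`, the elements of a subgroup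
of finite index act on the cohomology of `X` as a group. -/
def IsRep {W : WeilCohomology.{u, 0} ops} {L : Type} [Field L] [Algebra W.K L]
    (G : GaloisAction W L) : Prop :=
  (∀ g h, G.χ (g * h) = G.χ g * G.χ h) ∧
  ∀ X : 𝒱.Obj, ∃ U : Subgroup G.Γ, U.FiniteIndex ∧ ∀ g ∈ U, ∀ h ∈ U, ∀ x : HL W L X,
    G.act X (g * h) x = G.act X g (G.act X h x)

/-- All Hodge classes on all powers of `X` are Tate classes. -/
def HodgeAreTate (T : HodgeTheory ops) {L : Type} [Field L] [Algebra T.W.K L]
    (G : GaloisAction T.W L) (X : 𝒱.Obj) : Prop :=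
  ∀ n j c, IsHodge T (pw X n) j c → IsTate G (pw X n) j (emL T.W L c)

end Pool.Agent.U128.ZO.Tate
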