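import Pool.Agent.U128.ZO.TatePred
import Pool.Agent.U128.ZO.RepDefs
import Pool.Agent.U128.ZO.Orb
import Pool.Agent.Y121.AH.Alg2

/-!
# Classes generated by finitely many ones over Tate classes are Tate classes
-/

open CategoryTheory AlgebraicGeometry TensorProduct Filter Topology

open scoped ENNReal

universe u

namespace Pool.Agent.U128.ZO.Tate

open Module
open Pool.Agent.H914 Pool.Agent.H914.VarClass Pool.Agent.H914.VarClass.Obj
  Pool.Agent.H914.WeilCohomology
open Pool.Agent.Y121 Pool.Agent.Y121.AHS Pool.Agent.R920.MT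
open Pool.Agent.Y121.AH (em em_add em_zero em_smul em_mul em_map em_push em_cl em_gr em_injective
  xpw tr_xpw em_xpw em_corr)
open Pool.Agent.Y133.Half

variable {k : Type u} [Field k] {𝒱 : VarClass k} {ops : CycleOps 𝒱}
  {W : WeilCohomology.{u, 0} ops} {L : Type} [Field L] [Algebra W.K L]
  (G : GaloisAction W L)

section Push

variable {G} {X Y Z P : 𝒱.Obj}

/-- The push-forward is equivariant up to a power of the character. -/
lemma ac_push_all (f : X ⟶ Y) {g : G.Γ}
    (hmap : ∀ y : (baseW W L).H Y, ac G X g ((baseW W L).map f y) =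
      (baseW W L).map f (ac G Y g y))
    (hX : ∀ x : (baseW W L).H X, (baseW W L).tr X (ac G X g x) =
      ch G g ^ X.dim * (baseW W L).tr X x)
    (hY : ∀ y : (baseW W L).H Y, (baseW W L).tr Y (ac G Y g y) =
      ch G g ^ Y.dim * (baseW W L).tr Y y) (x : (baseW W L).H X) :
    ch G g ^ X.dim • ac G Y g ((baseW W L).push f x) =
      ch G g ^ Y.dim • (baseW W L).push f (ac G X g x) := by
  rw [← sub_eq_zero]
  apply (baseW W L).nondeg
  intro b
  obtain ⟨b, rfl⟩ := ac_surj g b
  rw [sub_mul, map_sub, sub_eq_zero, smul_mul_assoc, smul_mul_assoc, map_smul, map_smul,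
    ← ac_mul, hY, (baseW W L).tr_push, (baseW W L).tr_push, ← hmap, ← ac_mul, hX, smul_eq_mul,
    smul_eq_mul]
  ring

/-- The elements of the group which respect the correspondences between `P` and `Z`. -/
lemma ac_corr (P Z : 𝒱.Obj) : Virtually fun g : G.Γ => ∀ (a : ℕ) (z : (baseW W L).H (P.prod Z)),
    ac G _ g z = ch G g ^ a • z → ∀ x : (baseW W L).H P,
    ch G g ^ P.dim • ac G Z g ((baseW W L).corr z x) =
      ch G g ^ a • (baseW W L).corr z (ac G P g x) := by
  refine ((((ac_map (G := G) (fst P Z)).and (ac_map (G := G) (snd P Z))).and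
    (ac_tr (P.prod Z))).and (ac_tr Z)).mono fun g h a z hz x => ?_
  obtain ⟨⟨⟨h1, h2⟩, h3⟩, h4⟩ := h
  have h5 := ac_push_all (snd P Z) h2 h3 h4 (z * (baseW W L).map (fst P Z) x)
  rw [ac_mul, hz, h1, smul_mul_assoc, map_smul, dim_prod] at h5
  rw [corr_apply, corr_apply]
  have h6 : ch G g ^ Z.dim • (ch G g ^ P.dim • ac G Z g ((baseW W L).push (snd P Z)
      (z * (baseW W L).map (fst P Z) x))) = ch G g ^ Z.dim • (ch G g ^ a •
        (baseW W L).push (snd P Z) (z * (baseW W L).map (fst P Z) (ac G P g x))) := by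
    rw [smul_smul, ← pow_add, Nat.add_comm Z.dim, h5]
  exact smul_right_injective _ (pow_ne_zero _ (ch_ne G g)) h6

lemma xpw_smul {V : WeilCohomology.{u, 0} ops} (c : V.K) (v : V.H Z) :
    ∀ m, xpw V (c • v) m = c ^ (m + 1) • xpw V v m
  | 0 => by rw [zero_add, pow_one]; rfl
  | m + 1 => by
    have h : xp V (xpw V (c • v) m) (c • v) = c ^ (m + 2) • xp V (xpw V v m) v := by
      rw [xpw_smul c v m, xp_smul_left, xp_smul_right, smul_smul, ← pow_succ]
    exact h

/-- The elements of the group which respect the external powers. -/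
lemma ac_xpw (Z : 𝒱.Obj) : ∀ m, Virtually fun g : G.Γ => ∀ v : (baseW W L).H Z,
    ac G (pw Z m) g (xpw (baseW W L) v m) = xpw (baseW W L) (ac G Z g v) m
  | 0 => Virtually.of fun _ _ => rfl
  | m + 1 => by
    refine (((ac_map (G := G) (fst (pw Z m) Z)).and (ac_map (G := G) (snd (pw Z m) Z))).and
      (ac_xpw Z m)).mono fun g h v => ?_
    obtain ⟨⟨h1, h2⟩, h3⟩ := h
    have h4 : ac G ((pw Z m).prod Z) g (xp (baseW W L) (xpw (baseW W L) v m) v) =
        xp (baseW W L) (xpw (baseW W L) (ac G Z g v) m) (ac G Z g v) := by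
      rw [xp, ac_mul, h1, h2, h3, xp]
    exact h4

lemma Virtually.all {Γ : Type} [Group Γ] {P : ℕ → Γ → Prop} (h : ∀ s, Virtually (P s)) :
    ∀ n, Virtually fun g => ∀ s ≤ n, P s g
  | 0 => (h 0).mono fun g hg s hs => by rwa [Nat.le_zero.1 hs]
  | n + 1 => ((Virtually.all h n).and (h (n + 1))).mono fun g hg s hs => by
    rcases Nat.lt_or_ge n s with h1 | h1
    · rw [show s = n + 1 by omega]; exact hg.2
    · exact hg.1 s h1

end Push

section Good

variable {X Y Z : 𝒱.Obj} {r : ℕ} (c : Fin r → Σ m, W.H (pw X m)) (e : Fin r → ℕ)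

/-- The space of the parameters. -/
abbrev Par (L : Type) [Field L] [Algebra W.K L] (c : Fin r → Σ m, W.H (pw X m)) : Type :=
  (∀ i : Fin r, (baseW W L).H (pw X (c i).1)) × (baseW W L).K

/-- The twisted action on the space of the parameters. -/
noncomputable def pac (g : G.Γ) (w : Par L c) : Par L c :=
  (fun i => (ch G g ^ e i)⁻¹ • ac G (pw X (c i).1) g (w.1 i), w.2)

variable (L) in
/-- The point given by the generators. -/
noncomputable def pt : Par L c := (fun i => em W L (c i).2, 1)

/-- The class `x` is the value at the point given by the generators of a linear map which is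
equivariant for a subgroup of finite index. -/
def Good (l : ℕ) (x : (baseW W L).H Z) : Prop :=
  ∃ Φ : Par L c →ₗ[(baseW W L).K] (baseW W L).H Z, Φ (pt L c) = x ∧
    Virtually fun g : G.Γ => ∀ w, ac G Z g (Φ w) = ch G g ^ l • Φ (pac G c e g w)

variable {G c e}

lemma Good.add {l : ℕ} {x y : (baseW W L).H Z} (hx : Good G c e l x) (hy : Good G c e l y) :
    Good G c e l (x + y) := by
  obtain ⟨Φ, h1, h2⟩ := hx
  obtain ⟨Ψ, h3, h4⟩ := hy
  refine ⟨Φ + Ψ, by rw [LinearMap.add_apply, h1, h3], (h2.and h4).mono fun g h w => ?_⟩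
  rw [LinearMap.add_apply, map_add, h.1, h.2, LinearMap.add_apply, smul_add]

lemma Good.smul {l : ℕ} (t : (baseW W L).K) {x : (baseW W L).H Z} (hx : Good G c e l x) :
    Good G c e l (t • x) := by
  obtain ⟨Φ, h1, h2⟩ := hx
  refine ⟨t • Φ, by rw [LinearMap.smul_apply, h1], h2.mono fun g h w => ?_⟩
  rw [LinearMap.smul_apply, map_smul, h, LinearMap.smul_apply, smul_comm]

lemma Good.zero {l : ℕ} : Good G c e l (0 : (baseW W L).H Z) :=
  ⟨0, LinearMap.zero_apply _, Virtually.of fun g w => by
    rw [LinearMap.zero_apply, map_zero, LinearMap.zero_apply, smul_zero]⟩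

lemma Good.map {l : ℕ} (f : Z ⟶ Y) {x : (baseW W L).H Y} (hx : Good G c e l x) :
    Good G c e l ((baseW W L).map f x) := by
  obtain ⟨Φ, h1, h2⟩ := hx
  refine ⟨((baseW W L).map f).toLinearMap ∘ₗ Φ, ?_, (h2.and (ac_map f)).mono fun g h w => ?_⟩
  · rw [LinearMap.comp_apply, h1]; rfl
  · have h3 : ac G Z g ((baseW W L).map f (Φ w)) =
        ch G g ^ l • (baseW W L).map f (Φ (pac G c e g w)) := by
      rw [h.2, h.1, map_smul]
    exact h3

lemma Good.tate {l : ℕ} {x : (baseW W L).H Z} (hx : IsTate G Z l x) : Good G c e l x := by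
  refine ⟨LinearMap.toSpanSingleton _ _ x ∘ₗ LinearMap.snd _ _ _, ?_,
    ((isTate_iff.1 hx).2).mono fun g h w => ?_⟩
  · rw [LinearMap.comp_apply, LinearMap.toSpanSingleton_apply]
    exact one_smul _ x
  · have h3 : ac G Z g (w.2 • x) = ch G g ^ l • (w.2 • x) := by
      rw [map_smul, h, smul_comm]
    exact h3

lemma Good.corr {l a : ℕ} {i : Fin r} {z : W.H ((pw X (c i).1).prod Z)}
    (hz : IsTate G _ a (em W L z)) (ha : a + e i = l + (pw X (c i).1).dim) :
    Good G c e l (em W L (W.corr z (c i).2)) := by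
  refine ⟨(baseW W L).corr (em W L z) ∘ₗ LinearMap.proj i ∘ₗ LinearMap.fst _ _ _, ?_,
    (((isTate_iff.1 hz).2).and (ac_corr (pw X (c i).1) Z)).mono fun g h w => ?_⟩
  · rw [← em_corr]
    rfl
  · obtain ⟨h1, h2⟩ := h
    have h3 := h2 a _ h1 (w.1 i)
    have h4 : ac G Z g ((baseW W L).corr (em W L z) (w.1 i)) = ch G g ^ l •
        (baseW W L).corr (em W L z) ((ch G g ^ e i)⁻¹ • ac G (pw X (c i).1) g (w.1 i)) := by
      have h5 : ch G g ^ (pw X (c i).1).dim •
          ac G Z g ((baseW W L).corr (em W L z) (w.1 i)) =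
          ch G g ^ (pw X (c i).1).dim • (ch G g ^ l •
            (baseW W L).corr (em W L z)
              ((ch G g ^ e i)⁻¹ • ac G (pw X (c i).1) g (w.1 i))) := by
        rw [h3, map_smul, smul_smul, smul_smul]
        congr 1
        have h6 : ch G g ^ e i ≠ 0 := pow_ne_zero _ (ch_ne G g)
        rw [eq_comm, ← div_eq_mul_inv, div_eq_iff h6, ← pow_add, ← pow_add]
        congr 1
        omega
      exact smul_right_injective _ (pow_ne_zero _ (ch_ne G g)) h5
    exact h4

/-- The homogeneous components of the generated classes are good. -/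
lemma good_of_genOver {Q : ClassPred W}
    (hQ : ∀ (X : 𝒱.Obj) (j : ℕ) (x : W.H X), Q.P X j x → IsTate G X j (em W L x))
    (hc : ∀ i, (c i).2 ∈ W.gr _ (2 * e i)) {n : ℕ} (l : ℕ) {z : W.H (pw X n)}
    (hz : z ∈ genOver W Q.P X c n) :
    Good G c e l (em W L (H914.proj (W.isInternal (pw X n)) (2 * l) z)) := by
  unfold genOver at hz
  induction hz using Submodule.span_induction with
  | mem z hz =>
    rcases hz with ⟨j, hj⟩ | hz
    · by_cases h : j = l
      · subst h
        rw [proj_same _ (Q.gr hj)]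
        exact Good.tate (hQ _ _ _ hj)
      · rw [proj_ne _ (Q.gr hj) (by omega), em_zero]
        exact Good.zero
    · obtain ⟨i, hi⟩ := Set.mem_iUnion.1 hz
      obtain ⟨a, z', hz', h⟩ := hi
      have h3 : W.corr z' (c i).2 = z := h
      have hz'' : Q.P ((pw X (c i).1).prod (pw X n)) a z' := hz'
      rw [← h3]
      have h1 : z' * W.map (fst (pw X (c i).1) (pw X n)) (c i).2 ∈
          W.gr ((pw X (c i).1).prod (pw X n)) (2 * (a + e i)) := by
        rw [mul_add]; exact W.mul_mem (Q.gr hz'') (W.map_mem _ (hc i))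
      by_cases hil : a + e i = l + (pw X (c i).1).dim
      · have h2 : W.corr z' (c i).2 ∈ W.gr (pw X n) (2 * l) := by
          rw [corr_apply]
          exact AH.push_gr _ (by rw [dim_prod]; omega) h1
        rw [proj_same _ h2]
        exact Good.corr (hQ _ _ _ hz'') hil
      · have h2 : H914.proj (W.isInternal (pw X n)) (2 * l) (W.corr z' (c i).2) = 0 := by
          rw [corr_apply]
          by_cases hlt : a + e i < (pw X (c i).1).dim
          · rw [AH.push_neg _ (by rw [dim_prod]; omega) h1, map_zero]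
          · exact proj_ne _ (AH.push_gr (l := a + e i - (pw X (c i).1).dim) _
              (by rw [dim_prod]; omega) h1) (by omega)
        rw [h2, em_zero]
        exact Good.zero
  | zero => rw [map_zero, em_zero]; exact Good.zero
  | add x y _ _ hx hy => rw [map_add, em_add]; exact hx.add hy
  | smul a x _ hx => rw [map_smul, em_smul]; exact hx.smul _

end Good

end Pool.Agent.U128.ZO.Tate
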