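import Pool.Agent.Y121.AH.ZeroOne
import Pool.Agent.Y133.Half.PairPred

/-!
# Polynomial relations for finitely generated systems of classes

`R` is a realisation of the Weil cohomology theory `W` in the complex cohomology of a Hodge theory
`T`, and `gop` is the operator which acts on `H^(p,q)` as multiplication by `2 ^ (p - q)`. This file
generalises the corresponding lemmas of the library file `Y121/AH/Fix` to arbitrary `W`.
-/

open CategoryTheory AlgebraicGeometry TensorProduct

universe u

namespace Pool.Agent.U128.ZO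

open Module
open Pool.Agent.H914 Pool.Agent.H914.VarClass Pool.Agent.H914.VarClass.Obj
  Pool.Agent.H914.WeilCohomology
open Pool.Agent.Y133.Half Pool.Agent.Y121.AH

variable {k : Type u} [Field k] {𝒱 : VarClass k} {ops : CycleOps 𝒱}
  {W : WeilCohomology.{u, 0} ops} {T : HodgeTheory ops} (R : Rlz W (CW T)) {X P Z : 𝒱.Obj}

/-- The realisation of a correspondence commutes with the operator if the realisation of its class
is fixed. -/
lemma corr_comm {c : W.H (P.prod Z)} (hc : gop T (P.prod Z) (R.E _ c) = R.E _ c) :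
    ∃ F : (CW T).H P →ₗ[(CW T).K] (CW T).H Z,
      (∀ x, F (R.E P x) = R.E Z (W.corr c x)) ∧ ∀ y, gop T Z (F y) = F (gop T P y) := by
  have hne : R.c ^ P.dim ≠ 0 := pow_ne_zero _ R.ne
  have hne' : R.c ^ Z.dim ≠ 0 := pow_ne_zero _ R.ne
  refine ⟨(R.c ^ P.dim)⁻¹ • (CW T).corr (R.E _ c), fun x => ?_, fun y => ?_⟩
  · rw [LinearMap.smul_apply, corr_apply, corr_apply]
    have h := R.push (snd P Z) (c * W.map (fst P Z) x)
    rw [dim_prod, map_mul (R.E (P.prod Z)), R.nat] at h
    have h2 : R.c ^ Z.dim • (R.c ^ P.dim • R.E Z (W.push (snd P Z) (c * W.map (fst P Z) x))) =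
        R.c ^ Z.dim • ((CW T).push (snd P Z) (R.E _ c * (CW T).map (fst P Z) (R.E P x))) := by
      rw [← h, smul_smul, ← pow_add, Nat.add_comm Z.dim]
    have h3 := smul_right_injective _ hne' h2
    beta_reduce at h3
    rw [← h3, smul_smul, inv_mul_cancel₀ hne, one_smul]
  · rw [LinearMap.smul_apply, LinearMap.smul_apply, corr_apply, corr_apply, map_smul, gop_push,
      gop_mul, gop_map, hc]

/-- The classes whose realisations are fixed by the operator. -/
def Fixes (Q : ClassPred W) : Prop :=
  ∀ (X : 𝒱.Obj) (j : ℕ) (x : W.H X), Q.P X j x → gop T X (R.E X x) = R.E X x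

/-- The polynomial of finitely many classes. -/
noncomputable def pol (T : HodgeTheory ops) {r : ℕ} (c : Fin r → Σ m, W.H (pw X m)) :
    Polynomial (CW T).K :=
  (∏ i, (gop T (pw X (c i).1)).charpoly) * (Polynomial.X - Polynomial.C 1)

lemma pol_ne {r : ℕ} (c : Fin r → Σ m, W.H (pw X m)) : pol T c ≠ 0 := by
  refine mul_ne_zero (Finset.prod_ne_zero_iff.2 fun i _ => ?_) (Polynomial.X_sub_C_ne_zero 1)
  exact (LinearMap.charpoly_monic _).ne_zero

lemma pol_fix {r : ℕ} (c : Fin r → Σ m, W.H (pw X m)) {x : (CW T).H Z} (hx : gop T Z x = x) :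
    Polynomial.aeval (gop T Z) (pol T c) x = 0 := by
  rw [pol, map_mul, Module.End.mul_apply]
  have h : Polynomial.aeval (gop T Z) (Polynomial.X - Polynomial.C (1 : (CW T).K)) x = 0 := by
    rw [map_sub, Polynomial.aeval_X, Polynomial.aeval_C, map_one, LinearMap.sub_apply,
      Module.End.one_apply, hx, sub_self]
  rw [h, map_zero]

lemma pol_self {r : ℕ} (c : Fin r → Σ m, W.H (pw X m)) (i : Fin r) :
    Polynomial.aeval (gop T (pw X (c i).1)) (pol T c) = 0 := by
  have h : (gop T (pw X (c i).1)).charpoly ∣ pol T c :=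
    Dvd.dvd.mul_right (Finset.dvd_prod_of_mem _ (Finset.mem_univ i)) _
  obtain ⟨q, hq⟩ := h
  rw [hq, map_mul, LinearMap.aeval_self_charpoly, zero_mul]

/-- All generated classes satisfy the polynomial relation. -/
lemma genOver_rel {Q : ClassPred W} (hQ : Fixes R Q) {r : ℕ} (c : Fin r → Σ m, W.H (pw X m))
    {n : ℕ} {z : W.H (pw X n)} (hz : z ∈ genOver W Q.P X c n) :
    Polynomial.aeval (gop T (pw X n)) (pol T c) (R.E (pw X n) z) = 0 := by
  unfold genOver at hz
  induction hz using Submodule.span_induction with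
  | mem z hz =>
    rcases hz with ⟨j, hj⟩ | hz
    · exact pol_fix c (hQ _ _ _ hj)
    · obtain ⟨i, hi⟩ := Set.mem_iUnion.1 hz
      obtain ⟨j, z', hz', h⟩ := hi
      obtain ⟨F, h1, h2⟩ := corr_comm R (P := pw X (c i).1) (Z := pw X n) (hQ _ _ _ hz')
      have h3 : W.corr z' (c i).2 = z := h
      rw [← h3, ← h1, aeval_comm h2, pol_self, LinearMap.zero_apply, map_zero]
  | zero => rw [map_zero, map_zero]
  | add x y _ _ hx hy => rw [map_add, map_add, hx, hy, add_zero]
  | smul a x _ hx => rw [R.semi, map_smul, hx, smul_zero]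

lemma E_xp' {X Y : 𝒱.Obj} (a : W.H X) (b : W.H Y) :
    R.E (X.prod Y) (xp W a b) = xp (CW T) (R.E X a) (R.E Y b) := by
  rw [xp, map_mul, R.nat, R.nat, xp]

lemma E_xpw' (v : W.H Z) : ∀ m, R.E (pw Z m) (xpw W v m) = xpw (CW T) (R.E Z v) m
  | 0 => rfl
  | m + 1 => by
    have h := E_xp' R (xpw W v m) v
    rw [E_xpw' v m] at h
    exact h

/-- Polynomial relations for all external powers force a class to be fixed. -/
lemma fix_of_rel' {μ : Polynomial (CW T).K} (hμ : μ ≠ 0) {j : ℕ} {v : W.H Z}
    (hv : v ∈ W.gr Z (2 * j))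
    (h : ∀ m, Polynomial.aeval (gop T (pw Z m)) μ (R.E (pw Z m) (xpw W v m)) = 0) :
    gop T Z (R.E Z v) = R.E Z v := by
  have hE : R.E Z v ∈ (CW T).gr Z (2 * j) := R.gr hv
  have hE0 : R.E Z v ∈ PH (CW T) Z 0 := PH.of' (by omega) hE
  rw [← sub_eq_zero]
  apply (CW T).nondeg
  intro y
  refine pq_ind_nat (T := T) (p := fun y => (CW T).tr Z ((gop T Z (R.E Z v) - R.E Z v) * y) = 0)
    ?_ ?_ ?_ y
  · intro i a b hab y hy
    have hgy := gop_pq hy
    have h1 : (2 : (CW T).K) ^ (a - b) * (CW T).tr Z (gop T Z (R.E Z v) * y) =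
        (CW T).tr Z (R.E Z v * y) := by
      rw [← smul_eq_mul, ← map_smul, ← mul_smul_comm, ← hgy, ← gop_mul, tr_gop]
    by_cases hab' : a = b
    · subst hab'
      rw [sub_self, zpow_zero, one_mul] at h1
      rw [sub_mul, map_sub, h1, sub_self]
    · have hyi : y ∈ (CW T).gr Z i := T.dec.le Z hab hy
      have h2 : (CW T).tr Z (R.E Z v * y) = 0 := by
        rcases Nat.even_or_odd' i with ⟨r, hr | hr⟩
        · -- the even case
          by_contra hne
          have hy0 : y ∈ PH (CW T) Z 0 := PH.of' (by omega) hyi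
          have hb : (2 : (CW T).K) ^ (a - b) ≠ 0 := zpow_ne_zero _ two_ne
          have key : ∀ m : ℕ, μ.eval (((2 : (CW T).K) ^ (b - a)) ^ (m + 1)) = 0 := by
            intro m
            have h3 := gop_xpw hgy m
            have h4 : ∀ x, (CW T).tr (pw Z m) (gop T (pw Z m) x * xpw (CW T) y m) =
                ((2 : (CW T).K) ^ (b - a)) ^ (m + 1) *
                  (CW T).tr (pw Z m) (x * xpw (CW T) y m) := by
              intro x
              have h5 : ((2 : (CW T).K) ^ (a - b)) ^ (m + 1) *
                  (CW T).tr (pw Z m) (gop T (pw Z m) x * xpw (CW T) y m) =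
                  (CW T).tr (pw Z m) (x * xpw (CW T) y m) := by
                rw [← smul_eq_mul, ← map_smul, ← mul_smul_comm, ← h3, ← gop_mul, tr_gop]
              rw [← h5, ← mul_assoc, ← mul_pow, ← zpow_add₀ two_ne]
              simp
            have h6 := aeval_form (g := gop T (pw Z m))
              (φ := (CW T).tr (pw Z m) ∘ₗ LinearMap.mulRight (CW T).K (xpw (CW T) y m))
              (β := ((2 : (CW T).K) ^ (b - a)) ^ (m + 1)) h4 μ (R.E (pw Z m) (xpw W v m))
            rw [h m, map_zero, E_xpw'] at h6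
            have h7 : ((CW T).tr (pw Z m) ∘ₗ
                LinearMap.mulRight (CW T).K (xpw (CW T) y m)) (xpw (CW T) (R.E Z v) m) =
                (CW T).tr Z (R.E Z v * y) ^ (m + 1) := tr_xpw hE0 hy0 m
            rw [h7] at h6
            exact (mul_eq_zero.1 h6.symm).resolve_right (pow_ne_zero _ hne)
          have hinj : Function.Injective fun m : ℕ => ((2 : (CW T).K) ^ (b - a)) ^ (m + 1) := by
            intro m m' hmm
            beta_reduce at hmm
            rw [← zpow_natCast, ← zpow_natCast, ← zpow_mul, ← zpow_mul] at hmm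
            have h8 : (2 : (CW T).K) ^ ((b - a) * ((m + 1 : ℕ) : ℤ) -
                (b - a) * ((m' + 1 : ℕ) : ℤ)) = 1 := by
              rw [zpow_sub₀ two_ne, hmm, div_self (zpow_ne_zero _ two_ne)]
            have h9 := two_zpow_ne h8
            rw [← mul_sub] at h9
            rcases mul_eq_zero.1 h9 with h10 | h10
            · exact absurd (by omega) hab'
            · push_cast at h10; omega
          have hfin : {x : (CW T).K | μ.IsRoot x}.Finite := Polynomial.finite_setOfPred_isRoot hμ
          have hinf : (Set.range fun m : ℕ => ((2 : (CW T).K) ^ (b - a)) ^ (m + 1)).Infinite :=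
            Set.infinite_range_of_injective hinj
          exact hinf (hfin.subset (by rintro _ ⟨m, rfl⟩; exact key m))
        · apply (CW T).tr_eq_zero ((CW T).mul_mem hE hyi)
          omega
      rw [h2] at h1
      have h3 := (mul_eq_zero.1 h1).resolve_left (zpow_ne_zero _ two_ne)
      rw [sub_mul, map_sub, h3, h2, sub_self]
  · intro a b ha hb; rw [mul_add, map_add, ha, hb, add_zero]
  · rw [mul_zero, map_zero]

/-- The external powers of a class with the property. -/
lemma xpw_P (Q : ClassPred W) {j : ℕ} {v : W.H Z} (hv : Q.P Z j v) :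
    ∀ m, Q.P (pw Z m) (j * (m + 1)) (xpw W v m)
  | 0 => by
    have h : Q.P Z (j * (0 + 1)) v := by rwa [zero_add, mul_one]
    exact h
  | m + 1 => by
    have h := Q.mul (Q.map (fst (pw Z m) Z) (xpw_P Q hv m)) (Q.map (snd (pw Z m) Z) hv)
    rw [show j * (m + 1) + j = j * (m + 1 + 1) by ring] at h
    exact h

/-- **If all classes of the larger system are generated by finitely many ones over a system with
fixed realisations, then their realisations are fixed.** -/
theorem fixed_of_generated {Q S : ClassPred W} (hQ : Fixes R Q) {r : ℕ}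
    (c : Fin r → Σ m, W.H (pw X m))
    (hc : ∀ n j z, S.P (pw X n) j z → z ∈ genOver W Q.P X c n) {n j : ℕ} {v : W.H (pw X n)}
    (hv : S.P (pw X n) j v) : gop T (pw X n) (R.E (pw X n) v) = R.E (pw X n) v := by
  refine fix_of_rel' R (pol_ne (T := T) c) (S.gr hv) fun m => ?_
  obtain ⟨s, ⟨θ⟩⟩ := pw_pw X n m
  have h1 : S.P (pw X s) _ (W.map θ.inv (xpw W v m)) := S.map θ.inv (xpw_P S hv m)
  have h2 := genOver_rel R hQ c (hc _ _ _ h1)
  have h3 : W.map θ.hom (W.map θ.inv (xpw W v m)) = xpw W v m := by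
    have h4 := W.map_comp θ.hom θ.inv
    have h5 : W.map (θ.hom ≫ θ.inv) (xpw W v m) = xpw W v m := by
      rw [θ.hom_inv_id, W.map_id]
    rw [h4] at h5
    exact h5
  have h6 : R.E (pw (pw X n) m) (xpw W v m) =
      (CW T).map θ.hom (R.E (pw X s) (W.map θ.inv (xpw W v m))) := by
    rw [← R.nat, h3]
  have h7 := aeval_comm (g := gop T (pw X s)) (g' := gop T (pw (pw X n) m))
    (F := ((CW T).map θ.hom).toLinearMap) (fun x => gop_map θ.hom x) (pol T c)
    (R.E (pw X s) (W.map θ.inv (xpw W v m)))
  rw [h2, map_zero] at h7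
  rw [h6]
  exact h7

end Pool.Agent.U128.ZO
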