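import Pool.Agent.Y121.AHS.Defs

/-!
# Tate classes and Hodge classes: definitions

In the intended use `T` is the Hodge theory `X ↦ H(X(ℂ), ℚ)` given by an embedding of the field `k`
into the complex numbers, `L = ℚ_ℓ`, and `H(X(ℂ), ℚ) ⊗ ℚ_ℓ` is identified with the `ℓ`-adic cohomology by
the comparison isomorphism.
-/

set_option autoImplicit false

open CategoryTheory AlgebraicGeometry

universe u

namespace Pool.Agent.U128.ZO.Tate

open Pool.Agent.H914 Pool.Agent.H914.VarClass Pool.Agent.H914.VarClass.Obj
  Pool.Agent.H914.WeilCohomology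
open Pool.Agent.Y121.AHS
open Pool.Agent.Y133.Half (pw dimOf)

variable {k : Type u} [Field k] {𝒱 : VarClass k} {ops : CycleOps 𝒱}

/-- The property holds for all elements of a subgroup of finite index. -/
def Virtually {Γ : Type} [Group Γ] (P : Γ → Prop) : Prop :=
  ∃ U : Subgroup Γ, U.FiniteIndex ∧ ∀ g ∈ U, P g

/-- The action of a Galois group `Γ` on the cohomology with coefficients in `L`; `χ` is the inverse of
the cyclotomic character. Each `act X g` is an automorphism of the graded algebra. If `X` is given over
an algebraically closed field, then only the elements of a subgroup of finite index (the Galois group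
of a field of definition of `X`) act by transport of structure, and `act X g` may be the identity for
the other ones; so the compatibilities with pull-backs, algebraic cycles and orientations are required
for the elements of some subgroup of finite index only. -/
structure GaloisAction (W : WeilCohomology.{u, 0} ops) (L : Type) [Field L] [Algebra W.K L] where
  /-- the Galois group -/
  Γ : Type
  [group : Group Γ]
  /-- the inverse of the cyclotomic character -/
  χ : Γ → L
  ne : ∀ g, χ g ≠ 0
  /-- the action -/
  act : ∀ X : 𝒱.Obj, Γ → HL W L X → HL W L X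
  add : ∀ (X : 𝒱.Obj) (g : Γ) (x y : HL W L X), act X g (x + y) = act X g x + act X g y
  smul : ∀ (X : 𝒱.Obj) (g : Γ) (l : L) (x : HL W L X), act X g (smL l x) = smL l (act X g x)
  mul : ∀ (X : 𝒱.Obj) (g : Γ) (x y : HL W L X), act X g (mulL x y) = mulL (act X g x) (act X g y)
  surj : ∀ (X : 𝒱.Obj) (g : Γ), Function.Surjective (act X g)
  deg : ∀ (X : 𝒱.Obj) (g : Γ) (i : ℕ) (x : HL W L X), IsDeg i x → IsDeg i (act X g x)
  map : ∀ (X Y : 𝒱.Obj) (f : X ⟶ Y),
    Virtually fun g => ∀ y : HL W L Y, act X g (mapL f y) = mapL f (act Y g y)
  cl : ∀ (X : 𝒱.Obj) (j : ℕ) (z : X.Cycles), X.IsCyc j z →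
    Virtually fun g => act X g (emL W L (W.cl X z)) = smL (χ g ^ j) (emL W L (W.cl X z))
  tr : ∀ X : 𝒱.Obj, Virtually fun g => ∀ x : HL W L X, trL (act X g x) = χ g ^ X.dim * trL x

attribute [instance] GaloisAction.group

variable {W : WeilCohomology.{u, 0} ops} {L : Type} [Field L] [Algebra W.K L]

/-- The Tate classes of degree `2 j`: the classes in `H^(2j)` which are fixed, up to the Tate twist, by
a subgroup of finite index of the Galois group. -/
def IsTate (G : GaloisAction W L) (X : 𝒱.Obj) (j : ℕ) (x : HL W L X) : Prop :=
  IsDeg (2 * j) x ∧ Virtually fun g => G.act X g x = smL (G.χ g ^ j) x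

/-- The dimension of the space over `L` spanned by the Tate classes of all degrees. -/
noncomputable def tateDim (G : GaloisAction W L) (X : 𝒱.Obj) : ℕ :=
  Module.finrank L (Submodule.span L {x : HL W L X | ∃ j, IsTate G X j x})

section Hodge

variable (T : HodgeTheory ops) {L : Type} [Field L] [Algebra T.W.K L] (G : GaloisAction T.W L)

/-- The rational class `c` is a Hodge class and a Tate class. -/
def IsHodgeTate (X : 𝒱.Obj) (j : ℕ) (c : T.W.H X) : Prop :=
  IsHodge T X j c ∧ IsTate G X j (emL T.W L c)

/-- The dimension of the rational vector space spanned by the Hodge classes which are Tate classes. -/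
noncomputable def hodgeTateDim (X : 𝒱.Obj) : ℕ := dimOf T.W {c | ∃ j, IsHodgeTate T G X j c}

/-- The class `x` is a linear combination with coefficients in `L` of Hodge classes of degree `2 j`. -/
def IsHodgeSum (L : Type) [Field L] [Algebra T.W.K L] (X : 𝒱.Obj) (j : ℕ) (x : HL T.W L X) : Prop :=
  x ∈ Submodule.span L {y : HL T.W L X | ∃ c, IsHodge T X j c ∧ emL T.W L c = y}

/-- All Tate classes on all powers of `X` are linear combinations of Hodge classes. -/
def TateAreHodge (X : 𝒱.Obj) : Prop :=
  ∀ n j x, IsTate G (pw X n) j x → IsHodgeSum T L (pw X n) j x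

end Hodge

end Pool.Agent.U128.ZO.Tate
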