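import Pool.Agent.U128.ZO.Law
import Pool.Agent.U128.ZO.TateDefs

/-!
# The Tate classes as a system of classes
-/

open CategoryTheory AlgebraicGeometry TensorProduct Filter Topology

open scoped ENNReal

universe u

namespace Pool.Agent.U128.ZO.Tate

open Module
open Pool.Agent.H914 Pool.Agent.H914.VarClass Pool.Agent.H914.VarClass.Obj
  Pool.Agent.H914.WeilCohomology
open Pool.Agent.Y121 Pool.Agent.Y121.AHS Pool.Agent.R920.MT
open Pool.Agent.Y121.AH (em em_add em_zero em_smul em_mul em_map em_push em_cl em_gr em_injective)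
open Pool.Agent.Y133.Half (pw HasIndex GeneratedOver dimBy cycRank ClassPred dimOf)

variable {k : Type u} [Field k] {𝒱 : VarClass k} {ops : CycleOps 𝒱}

section Virt

variable {Γ : Type} [Group Γ] {P Q : Γ → Prop}

lemma Virtually.and (h1 : Virtually P) (h2 : Virtually Q) : Virtually fun g => P g ∧ Q g := by
  obtain ⟨U, hU, h1⟩ := h1
  obtain ⟨V, hV, h2⟩ := h2
  exact ⟨U ⊓ V, inferInstance, fun g hg => ⟨h1 g hg.1, h2 g hg.2⟩⟩

lemma Virtually.mono (h1 : Virtually P) (h : ∀ g, P g → Q g) : Virtually Q := by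
  obtain ⟨U, hU, h1⟩ := h1
  exact ⟨U, hU, fun g hg => h g (h1 g hg)⟩

lemma Virtually.of (h : ∀ g, P g) : Virtually P := ⟨⊤, inferInstance, fun g _ => h g⟩

end Virt

variable {W : WeilCohomology.{u, 0} ops} {L : Type} [Field L] [Algebra W.K L]
  (G : GaloisAction W L) {X Y : 𝒱.Obj}

/-- The action on the cohomology with extended coefficients. -/
noncomputable def ac (X : 𝒱.Obj) (g : G.Γ) : Module.End (baseW W L).K ((baseW W L).H X) where
  toFun x := G.act X g x
  map_add' x y := G.add X g x y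
  map_smul' l x := G.smul X g l x

/-- The inverse cyclotomic character. -/
def ch (g : G.Γ) : (baseW W L).K := G.χ g

lemma ch_ne (g : G.Γ) : ch G g ≠ 0 := G.ne g

variable {G}

lemma ac_mul (g : G.Γ) (x y : (baseW W L).H X) : ac G X g (x * y) = ac G X g x * ac G X g y :=
  G.mul X g x y

lemma ac_surj (g : G.Γ) (y : (baseW W L).H X) : ∃ x, ac G X g x = y := G.surj X g y

lemma ac_gr (g : G.Γ) {i : ℕ} {x : (baseW W L).H X} (h : x ∈ (baseW W L).gr X i) :
    ac G X g x ∈ (baseW W L).gr X i := G.deg X g i x h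

lemma ac_map (f : X ⟶ Y) : Virtually fun g : G.Γ => ∀ y : (baseW W L).H Y,
    ac G X g ((baseW W L).map f y) = (baseW W L).map f (ac G Y g y) := by
  refine (G.map X Y f).mono fun g h y => ?_
  have h1 : (baseW W L).map f y = (show (baseW W L).H X from mapL f (show HL W L Y from y)) :=
    map_eq W L f y
  have h2 : (baseW W L).map f (ac G Y g y) = (show (baseW W L).H X from
      mapL f (show HL W L Y from G.act Y g y)) := map_eq W L f (G.act Y g y)
  rw [h1, h2]
  exact h y

lemma ac_cl {j : ℕ} {z : X.Cycles} (hz : X.IsCyc j z) : Virtually fun g : G.Γ =>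
    ac G X g (em W L (W.cl X z)) = ch G g ^ j • em W L (W.cl X z) :=
  G.cl X j z hz

lemma ac_tr (X : 𝒱.Obj) : Virtually fun g : G.Γ => ∀ x : (baseW W L).H X,
    (baseW W L).tr X (ac G X g x) = ch G g ^ X.dim * (baseW W L).tr X x :=
  G.tr X

/-- The push-forward of a class which is an eigenvector. -/
lemma ac_push (f : X ⟶ Y) {j l : ℕ} (hl : l + X.dim = j + Y.dim) {g : G.Γ}
    (hmap : ∀ y : (baseW W L).H Y, ac G X g ((baseW W L).map f y) =
      (baseW W L).map f (ac G Y g y))
    (hX : ∀ x : (baseW W L).H X, (baseW W L).tr X (ac G X g x) =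
      ch G g ^ X.dim * (baseW W L).tr X x)
    (hY : ∀ y : (baseW W L).H Y, (baseW W L).tr Y (ac G Y g y) =
      ch G g ^ Y.dim * (baseW W L).tr Y y) {a : (baseW W L).H X}
    (ha : ac G X g a = ch G g ^ j • a) :
    ac G Y g ((baseW W L).push f a) = ch G g ^ l • (baseW W L).push f a := by
  rw [← sub_eq_zero]
  apply (baseW W L).nondeg
  intro b
  obtain ⟨b, rfl⟩ := ac_surj g b
  rw [sub_mul, map_sub, sub_eq_zero, ← ac_mul, hY, smul_mul_assoc, map_smul, smul_eq_mul,
    (baseW W L).tr_push, (baseW W L).tr_push, ← hmap]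
  have h1 := hX (a * (baseW W L).map f b)
  rw [ac_mul, ha, smul_mul_assoc, map_smul, smul_eq_mul] at h1
  have h2 : ch G g ^ j * (ch G g ^ Y.dim * (baseW W L).tr X (a * (baseW W L).map f b)) =
      ch G g ^ j * (ch G g ^ l * (baseW W L).tr X (a * ac G X g ((baseW W L).map f b))) := by
    calc ch G g ^ j * (ch G g ^ Y.dim * (baseW W L).tr X (a * (baseW W L).map f b))
        = ch G g ^ l * (ch G g ^ X.dim * (baseW W L).tr X (a * (baseW W L).map f b)) := by
          rw [← mul_assoc, ← mul_assoc, ← pow_add, ← pow_add, hl]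
      _ = ch G g ^ l * (ch G g ^ j * (baseW W L).tr X (a * ac G X g ((baseW W L).map f b))) := by
          rw [h1]
      _ = _ := by ring
  exact mul_left_cancel₀ (pow_ne_zero _ (ch_ne G g)) h2

lemma isTate_iff {j : ℕ} {x : (baseW W L).H X} : IsTate G X j x ↔
    x ∈ (baseW W L).gr X (2 * j) ∧ Virtually fun g : G.Γ => ac G X g x = ch G g ^ j • x := Iff.rfl

variable (G)

/-- The Tate classes. -/
def tatePred : ClassPred (baseW W L) where
  P X j x := IsTate G X j x
  gr h := h.1
  zero := isTate_iff.2 ⟨Submodule.zero_mem _, Virtually.of fun g => by rw [map_zero, smul_zero]⟩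
  add {X j a b} ha hb := by
    obtain ⟨h1, h2⟩ := isTate_iff.1 ha
    obtain ⟨h3, h4⟩ := isTate_iff.1 hb
    exact isTate_iff.2 ⟨Submodule.add_mem _ h1 h3,
      (h2.and h4).mono fun g h => by rw [map_add, h.1, h.2, smul_add]⟩
  smul {X j} r a ha := by
    obtain ⟨h1, h2⟩ := isTate_iff.1 ha
    exact isTate_iff.2 ⟨Submodule.smul_mem _ _ h1, h2.mono fun g h => by
      rw [map_smul, h, smul_comm]⟩
  cl {X j z} hz := isTate_iff.2 ⟨(baseW W L).cl_mem hz, ac_cl hz⟩
  mul {X i j a b} ha hb := by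
    obtain ⟨h1, h2⟩ := isTate_iff.1 ha
    obtain ⟨h3, h4⟩ := isTate_iff.1 hb
    refine isTate_iff.2 ⟨?_, (h2.and h4).mono fun g h => ?_⟩
    · rw [mul_add]; exact (baseW W L).mul_mem h1 h3
    · rw [ac_mul, h.1, h.2, smul_mul_smul_comm, pow_add]
  map {X Y} f j a ha := by
    obtain ⟨h1, h2⟩ := isTate_iff.1 ha
    refine isTate_iff.2 ⟨(baseW W L).map_mem f h1, (h2.and (ac_map f)).mono fun g h => ?_⟩
    rw [h.2, h.1, map_smul]
  push {X Y} f j l hl a ha := by
    obtain ⟨h1, h2⟩ := isTate_iff.1 ha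
    refine isTate_iff.2 ⟨AH.push_gr f hl h1, (((h2.and (ac_map f)).and (ac_tr X)).and
      (ac_tr Y)).mono fun g h => ?_⟩
    exact ac_push f hl h.1.1.2 h.1.2 h.2 h.1.1.1

/-- The rational classes which are Tate classes. -/
def ratPred : ClassPred W where
  P X j c := c ∈ W.gr X (2 * j) ∧ (tatePred G).P X j (em W L c)
  gr h := h.1
  zero := ⟨Submodule.zero_mem _, by rw [em_zero]; exact (tatePred G).zero⟩
  add ha hb := ⟨Submodule.add_mem _ ha.1 hb.1, by rw [em_add]; exact (tatePred G).add ha.2 hb.2⟩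
  smul r _ ha := ⟨Submodule.smul_mem _ _ ha.1, by rw [em_smul]; exact (tatePred G).smul _ ha.2⟩
  cl hz := ⟨W.cl_mem hz, (tatePred G).cl hz⟩
  mul ha hb := ⟨by rw [mul_add]; exact W.mul_mem ha.1 hb.1, by
    rw [em_mul]; exact (tatePred G).mul ha.2 hb.2⟩
  map f _ _ h := ⟨W.map_mem f h.1, by rw [← em_map]; exact (tatePred G).map f h.2⟩
  push f _ _ hl _ h := ⟨AH.push_gr f hl h.1, by rw [← em_push]; exact (tatePred G).push f hl h.2⟩

end Pool.Agent.U128.ZO.Tate
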