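import Pool.Agent.U128.ZO.Hodge

/-!
# The trichotomy for the Hodge classes and the Tate classes
-/

open CategoryTheory AlgebraicGeometry TensorProduct Filter Topology

open scoped ENNReal

universe u

namespace Pool.Agent.U128.ZO.Tate

open Module
open Pool.Agent.H914 Pool.Agent.H914.VarClass Pool.Agent.H914.VarClass.Obj
  Pool.Agent.H914.WeilCohomology
open Pool.Agent.Y121 Pool.Agent.Y121.AHS Pool.Agent.R920.MT
open Pool.Agent.Y121.AH (em em_add em_zero em_smul em_mul em_map em_push em_cl em_gr em_injective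
  hodgePred)
open Pool.Agent.Y133.Half

variable {k : Type u} [Field k] {𝒱 : VarClass k} {ops : CycleOps 𝒱}
  {T : HodgeTheory ops} {L : Type} [Field L] [Algebra T.W.K L] (G : GaloisAction T.W L)
  {X : 𝒱.Obj}

lemma dimBy_ht (Z : 𝒱.Obj) : dimBy (toH T).W (htPred G).P Z = hodgeTateDim T G Z := by
  have h2 : {c : T.W.H Z | ∃ j, (htPred G).P Z j c} = {c | ∃ j, IsHodgeTate T G Z j c} := by
    ext c
    constructor
    · rintro ⟨j, h⟩; exact ⟨j, h.1, h.2.2⟩
    · rintro ⟨j, h⟩; exact ⟨j, h.1, h.1.1, h.2⟩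
  have h3 : dimBy (toH T).W (htPred G).P Z =
      dimOf T.W {c : T.W.H Z | ∃ j, (htPred G).P Z j c} := rfl
  rw [h3, h2]
  rfl

/-- The zero-one law for the Tate classes among the Hodge classes. -/
theorem hodge_index [Infinite L] (hG : IsRep G) (X : 𝒱.Obj) [hX : Nontrivial (T.W.H X)] :
    HodgeAreTate T G X ∨
      HasIndex (fun n => hodgeDim T (pw X n)) (fun n => hodgeTateDim T G (pw X n)) ⊤ := by
  have hnt : Nontrivial ((toH T).W.H X) := hX
  obtain ⟨N, M, -, -, h3, -, -, -, -, -, -, h10, -⟩ := ClassPred.tower (htPred G)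
    (hodgePred (toH T)) (fun h => h.1) X
    (fun n => both_nondeg (T := toH T) (lift_rat G) (pw X n))
  by_cases hN : N = ⊤
  · right
    subst hN
    have h4 : (fun n => dimBy (toH T).W (htPred G).P (pw X n)) =
        fun n => hodgeTateDim T G (pw X n) := funext fun n => dimBy_ht G _
    rw [h4] at h3
    exact h3
  · left
    intro n j c hc
    exact tate_of_generated (W := T.W) (G := G) (Q := htPred G) (S := hodgePred (toH T)) hG
      (fun X j x hx => hx.2.2) (h10 hN) n j c hc

variable {G}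

lemma hodgeTateDim_eq (h : HodgeAreTate T G X) (n : ℕ) :
    hodgeTateDim T G (pw X n) = hodgeDim T (pw X n) := by
  have h2 : {c | ∃ j, IsHodgeTate T G (pw X n) j c} = {c | ∃ j, IsHodge T (pw X n) j c} := by
    ext c
    constructor
    · rintro ⟨j, hj⟩; exact ⟨j, hj.1⟩
    · rintro ⟨j, hj⟩; exact ⟨j, hj, h n j c hj⟩
  rw [hodgeTateDim, h2]
  rfl

lemma tateDim_eq (h : HodgeAreTate T G X) (h' : TateAreHodge T G X) (n : ℕ) :
    tateDim G (pw X n) = hodgeDim T (pw X n) := by
  rw [← hodgeTateDim_eq h n, ← finrank_htSys]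
  have h1 : (tatePred G).sys.C (pw X n) ≤ (htSys G).C (pw X n) := by
    refine Submodule.span_le.2 ?_
    rintro x ⟨j, hj⟩
    have h2 : x ∈ Submodule.span L {y : HL T.W L (pw X n) | ∃ c, IsHodge T (pw X n) j c ∧
      emL T.W L c = y} := h' n j x hj
    have h3 : Submodule.span L {y : HL T.W L (pw X n) | ∃ c, IsHodge T (pw X n) j c ∧
        emL T.W L c = y} ≤ (htSys G).C (pw X n) := by
      refine Submodule.span_le.2 ?_
      rintro _ ⟨c, hc, rfl⟩
      have h4 : c ∈ (htPred G).sys.C (pw X n) :=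
        ClassPred.sp_of (Q := htPred G) ⟨hc, hc.1, h n j c hc⟩
      exact Submodule.tmul_mem_baseChange_of_mem (1 : L) h4
    exact h3 h2
  have h2 : (tatePred G).sys.C (pw X n) = (htSys G).C (pw X n) :=
    le_antisymm h1 (htSys_le G _)
  have h3 : tateDim G (pw X n) = finrank (baseW T.W L).K ((tatePred G).sys.C (pw X n)) := rfl
  rw [h3, h2]

variable (G)

/-- **The trichotomy.** -/
theorem trichotomy (hG : IsRep G) (τ : L →+* ℂ) (X : 𝒱.Obj) [Nontrivial (T.W.H X)] :
    (HodgeAreTate T G X ∧ TateAreHodge T G X ∧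
      ∀ n, tateDim G (pw X n) = hodgeDim T (pw X n)) ∨
    (¬ HodgeAreTate T G X ∧
      HasIndex (fun n => hodgeDim T (pw X n)) (fun n => hodgeTateDim T G (pw X n)) ⊤) ∨
    (HodgeAreTate T G X ∧ ¬ TateAreHodge T G X ∧
      HasIndex (fun n => tateDim G (pw X n)) (fun n => hodgeDim T (pw X n)) ⊤) := by
  have hL : CharZero L := τ.charZero
  by_cases h1 : HodgeAreTate T G X
  · by_cases h2 : TateAreHodge T G X
    · exact Or.inl ⟨h1, h2, tateDim_eq h1 h2⟩
    · refine Or.inr (Or.inr ⟨h1, h2, ?_⟩)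
      obtain ⟨N, -, h3, h4⟩ := index G τ X
      have hN : N = ⊤ := by
        by_contra hN
        exact h2 (h4 hN)
      subst hN
      have h5 : (fun n => hodgeTateDim T G (pw X n)) = fun n => hodgeDim T (pw X n) :=
        funext fun n => hodgeTateDim_eq h1 n
      rw [h5] at h3
      exact h3
  · rcases hodge_index G hG X with h2 | h2
    · exact absurd h2 h1
    · exact Or.inr (Or.inl ⟨h1, h2⟩)

end Pool.Agent.U128.ZO.Tate
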